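import Pool.Agent.Lib.MP_2c7063_coTG.Inv

/-! Two abstract exchange systems: a minimal pair of chains. -/

namespace Pool.Agent.Lib.MP_2c7063_coTG

open Finset

variable {m : ℕ} {ρ κ : Type*} [Fintype ρ] [Fintype κ] [DecidableEq ρ] [DecidableEq κ]

/-- an abstract exchange system -/
structure Sys (L : Finset ρ → Finset κ → Prop) : Prop where
  bot : L ∅ ∅
  top : L univ univ
  ext : ∀ I J, L I J → I.card = J.card → ∀ a ∉ I, ∃ b ∉ J, L (insert a I) (insert b J)
  sqr : ∀ I J a a' b b', a ∉ I → a' ∉ I → a ≠ a' → b ∉ J → b' ∉ J → b ≠ b' → L I J →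
    L (insert a (insert a' I)) (insert b (insert b' J)) →
      L (insert a I) (insert b J) ∨ L (insert a I) (insert b' J)
  sqc : ∀ I J a a' b b', a ∉ I → a' ∉ I → a ≠ a' → b ∉ J → b' ∉ J → b ≠ b' → L I J →
    L (insert a (insert a' I)) (insert b (insert b' J)) →
      L (insert a I) (insert b J) ∨ L (insert a' I) (insert b J)
  tri : ∀ I J a a' b b', a ∉ I → a' ∉ I → a ≠ a' → b ∉ J → b' ∉ J → b ≠ b' → L I J →
    L (insert a I) (insert b J) → L (insert a' I) (insert b' J) →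
      ¬ L (insert a' I) (insert b J) → L (insert a (insert a' I)) (insert b (insert b' J))

/-- the first `i` elements -/
def pre (x : Fin m ≃ ρ) (i : ℕ) : Finset ρ := univ.filter fun r => (x.symm r : ℕ) < i

omit [DecidableEq ρ] in
theorem mem_pre {x : Fin m ≃ ρ} {i : ℕ} {r : ρ} : r ∈ pre x i ↔ (x.symm r : ℕ) < i := by
  simp [pre]

omit [DecidableEq ρ] in
theorem app_mem_pre {x : Fin m ≃ ρ} {i : ℕ} {j : Fin m} : x j ∈ pre x i ↔ (j : ℕ) < i := by
  rw [mem_pre, Equiv.symm_apply_apply]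

omit [DecidableEq ρ] in
theorem pre_zero (x : Fin m ≃ ρ) : pre x 0 = ∅ := by
  ext r
  simp [mem_pre]

omit [DecidableEq ρ] in
theorem pre_top (x : Fin m ≃ ρ) : pre x m = univ := by
  ext r
  simp [mem_pre]

theorem pre_succ (x : Fin m ≃ ρ) {k : ℕ} (hk : k < m) :
    pre x (k + 1) = insert (x ⟨k, hk⟩) (pre x k) := by
  ext r
  rw [mem_insert, mem_pre, mem_pre, ← Equiv.symm_apply_eq, Fin.ext_iff]
  simp only
  omega

theorem pre_two (x : Fin m ≃ ρ) {k : ℕ} (hk : k + 1 < m) :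
    pre x (k + 2) =
      insert (x ⟨k, Nat.lt_of_succ_lt hk⟩) (insert (x ⟨k + 1, hk⟩) (pre x k)) := by
  rw [pre_succ x hk, pre_succ x (Nat.lt_of_succ_lt hk), Finset.insert_comm]

omit [DecidableEq ρ] in
theorem card_pre (x : Fin m ≃ ρ) {i : ℕ} (hi : i ≤ m) : (pre x i).card = i := by
  classical
  induction i with
  | zero => rw [pre_zero, card_empty]
  | succ k ih =>
    rw [pre_succ x (by omega), card_insert_of_notMem (by rw [app_mem_pre]; simp),
      ih (by omega)]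

omit [DecidableEq ρ] in
theorem pre_sw_ne (x : Fin m ≃ ρ) {k : ℕ} (hk : k + 1 < m) {i : ℕ} (hi : i ≠ k + 1) :
    pre ((sw k hk).trans x) i = pre x i := by
  ext r
  rw [mem_pre, mem_pre, Equiv.symm_trans_apply]
  have : (sw k hk).symm = sw k hk := Equiv.symm_swap _ _
  rw [this, sw_lt k hk _ hi]

theorem pre_sw (x : Fin m ≃ ρ) {k : ℕ} (hk : k + 1 < m) :
    pre ((sw k hk).trans x) (k + 1) = insert (x ⟨k + 1, hk⟩) (pre x k) := by
  rw [pre_succ _ (Nat.lt_of_succ_lt hk), Equiv.trans_apply, sw_left, pre_sw_ne x hk (by omega)]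

/-- a chain of cells -/
def Chn (L : Finset ρ → Finset κ → Prop) (x : Fin m ≃ ρ) (y : Fin m ≃ κ) : Prop :=
  ∀ i ≤ m, L (pre x i) (pre y i)

variable {L L₁ L₂ : Finset ρ → Finset κ → Prop} {x : Fin m ≃ ρ} {y z : Fin m ≃ κ}

theorem Chn.of {x' : Fin m ≃ ρ} {y' : Fin m ≃ κ} (h : Chn L x y) (k : ℕ)
    (hx : ∀ i, i ≠ k + 1 → pre x' i = pre x i) (hy : ∀ i, i ≠ k + 1 → pre y' i = pre y i)
    (hL : L (pre x' (k + 1)) (pre y' (k + 1))) : Chn L x' y' := by
  intro i hi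
  by_cases h1 : i = k + 1
  · rw [h1]
    exact hL
  · rw [hx i h1, hy i h1]
    exact h i hi

/-- the cells around level `k + 1` -/
theorem Chn.sq (hL : Sys L) (h : Chn L x y) {k : ℕ} (hk : k + 1 < m) :
    (L (insert (x ⟨k, Nat.lt_of_succ_lt hk⟩) (pre x k)) (insert (y ⟨k + 1, hk⟩) (pre y k)) ∨
      L (insert (x ⟨k + 1, hk⟩) (pre x k)) (insert (y ⟨k + 1, hk⟩) (pre y k))) ∧
    (L (insert (x ⟨k + 1, hk⟩) (pre x k)) (insert (y ⟨k, Nat.lt_of_succ_lt hk⟩) (pre y k)) ∨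
      L (insert (x ⟨k + 1, hk⟩) (pre x k)) (insert (y ⟨k + 1, hk⟩) (pre y k))) := by
  have hx1 : x ⟨k, Nat.lt_of_succ_lt hk⟩ ∉ pre x k := by
    rw [app_mem_pre]
    simp
  have hx2 : x ⟨k + 1, hk⟩ ∉ pre x k := by
    rw [app_mem_pre]
    simp
  have hy1 : y ⟨k, Nat.lt_of_succ_lt hk⟩ ∉ pre y k := by
    rw [app_mem_pre]
    simp
  have hy2 : y ⟨k + 1, hk⟩ ∉ pre y k := by
    rw [app_mem_pre]
    simp
  have hx : x ⟨k, Nat.lt_of_succ_lt hk⟩ ≠ x ⟨k + 1, hk⟩ := by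
    intro e
    have := congrArg Fin.val (x.injective e)
    simp at this
  have hy : y ⟨k, Nat.lt_of_succ_lt hk⟩ ≠ y ⟨k + 1, hk⟩ := by
    intro e
    have := congrArg Fin.val (y.injective e)
    simp at this
  have h0 := h k (by omega)
  have h2 := h (k + 2) (by omega)
  rw [pre_two x hk, pre_two y hk] at h2
  constructor
  · have h3 := h2
    rw [Finset.insert_comm (y ⟨k, Nat.lt_of_succ_lt hk⟩)] at h3
    exact hL.sqc _ _ _ _ _ _ hx1 hx2 hx hy2 hy1 hy.symm h0 h3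
  · have h3 := h2
    rw [Finset.insert_comm (x ⟨k, Nat.lt_of_succ_lt hk⟩)] at h3
    exact hL.sqr _ _ _ _ _ _ hx2 hx1 hx.symm hy1 hy2 hy h0 h3

/-- two chains with the same rows -/
def Stt (L₁ L₂ : Finset ρ → Finset κ → Prop) (x : Fin m ≃ ρ) (y z : Fin m ≃ κ) : Prop :=
  Chn L₁ x y ∧ Chn L₂ x z

/-- the permutation -/
def wp (y z : Fin m ≃ κ) (j : Fin m) : Fin m := y.symm (z j)

omit [Fintype κ] [DecidableEq κ] in
theorem wp_inj (y z : Fin m ≃ κ) : Function.Injective (wp y z) := fun _ _ h =>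
  z.injective (y.symm.injective h)

/-- the state has the smallest number of inversions -/
def Mn (L₁ L₂ : Finset ρ → Finset κ → Prop) (x : Fin m ≃ ρ) (y z : Fin m ≃ κ) : Prop :=
  Stt L₁ L₂ x y z ∧ ∀ (x' : Fin m ≃ ρ) (y' z' : Fin m ≃ κ), Stt L₁ L₂ x' y' z' →
    (invs (wp y z)).card ≤ (invs (wp y' z')).card

/-- **cyclic shift** -/
theorem Mn.shift (h₁ : Sys L₁) (h₂ : Sys L₂) (h : Mn L₁ L₂ x y z) {k : ℕ} (hk : k + 1 < m)
    (hw : wp y z ⟨k + 1, hk⟩ < wp y z ⟨k, Nat.lt_of_succ_lt hk⟩) :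
    Mn L₁ L₂ ((sw k hk).trans x) ((sw k hk).trans y) ((sw k hk).trans z) := by
  obtain ⟨⟨hc1, hc2⟩, hmin⟩ := h
  have hlt := invs_right (wp y z) k hk hw
  have e1 : wp y ((sw k hk).trans z) = fun j => wp y z (sw k hk j) := rfl
  -- `z` cannot be changed alone
  have n1 : ¬ L₂ (insert (x ⟨k, Nat.lt_of_succ_lt hk⟩) (pre x k))
      (insert (z ⟨k + 1, hk⟩) (pre z k)) := by
    intro hL
    have h3 : Stt L₁ L₂ x y ((sw k hk).trans z) :=
      ⟨hc1, hc2.of k (fun _ _ => rfl) (fun i hi => pre_sw_ne z hk hi) (by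
        rw [pre_sw, pre_succ x (Nat.lt_of_succ_lt hk)]
        exact hL)⟩
    have h4 := hmin _ _ _ h3
    rw [e1] at h4
    omega
  have c2 : Chn L₂ ((sw k hk).trans x) ((sw k hk).trans z) :=
    hc2.of k (fun i hi => pre_sw_ne x hk hi) (fun i hi => pre_sw_ne z hk hi) (by
      rw [pre_sw, pre_sw]
      exact (hc2.sq h₂ hk).1.resolve_left n1)
  have n2 : ¬ L₁ (insert (x ⟨k + 1, hk⟩) (pre x k))
      (insert (y ⟨k, Nat.lt_of_succ_lt hk⟩) (pre y k)) := by
    intro hL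
    have h3 : Stt L₁ L₂ ((sw k hk).trans x) y ((sw k hk).trans z) :=
      ⟨hc1.of k (fun i hi => pre_sw_ne x hk hi) (fun _ _ => rfl) (by
        rw [pre_sw, pre_succ y (Nat.lt_of_succ_lt hk)]
        exact hL), c2⟩
    have h4 := hmin _ _ _ h3
    rw [e1] at h4
    omega
  have c1 : Chn L₁ ((sw k hk).trans x) ((sw k hk).trans y) :=
    hc1.of k (fun i hi => pre_sw_ne x hk hi) (fun i hi => pre_sw_ne y hk hi) (by
      rw [pre_sw, pre_sw]
      exact (hc1.sq h₁ hk).2.resolve_left n2)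
  refine ⟨⟨c1, c2⟩, fun x' y' z' h' => ?_⟩
  have e2 : wp ((sw k hk).trans y) ((sw k hk).trans z) =
      fun j => sw k hk (wp y z (sw k hk j)) := by
    funext j
    rfl
  have h5 := invs_left (fun j => wp y z (sw k hk j))
    ((wp_inj y z).comp (sw k hk).injective) k hk
  have h6 := hmin _ _ _ h'
  rw [e2]
  exact le_trans (by omega) h6

omit [Fintype κ] [DecidableEq κ] in
theorem wp_sw (y z : Fin m ≃ κ) {k : ℕ} (hk : k + 1 < m) (j : Fin m) :
    wp ((sw k hk).trans y) ((sw k hk).trans z) j = sw k hk (wp y z (sw k hk j)) := rfl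

/-- the algorithm for one value -/
theorem Mn.step (h₁ : Sys L₁) (h₂ : Sys L₂) {v : ℕ} : ∀ (n : ℕ) (x : Fin m ≃ ρ)
    (y z : Fin m ≃ κ), Mn L₁ L₂ x y z → (∀ j, (wp y z j : ℕ) ≤ max (v + 1) (j + 1)) →
      (∀ j, (wp y z j : ℕ) = v + 1 → v ≤ j + n) →
        ∃ (x' : Fin m ≃ ρ) (y' z' : Fin m ≃ κ), Mn L₁ L₂ x' y' z' ∧
          ∀ j, (wp y' z' j : ℕ) ≤ max v (j + 1) := by
  intro n
  induction n with
  | zero =>
    intro x y z h hg hn
    refine ⟨x, y, z, h, fun j => ?_⟩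
    have h1 := hg j
    have h2 := hn j
    omega
  | succ n ih =>
    intro x y z h hg hn
    by_cases hgood : ∀ j, (wp y z j : ℕ) = v + 1 → v ≤ j + n
    · exact ih x y z h hg hgood
    · push Not at hgood
      obtain ⟨i, hi1, hi2⟩ := hgood
      have hi3 := hn i hi1
      have hvm : v + 1 < m := by
        rw [← hi1]
        exact (wp y z i).2
      have hk : (i : ℕ) + 1 < m := by omega
      have ei : (⟨(i : ℕ), Nat.lt_of_succ_lt hk⟩ : Fin m) = i := rfl
      have hlt : wp y z ⟨(i : ℕ) + 1, hk⟩ < wp y z ⟨(i : ℕ), Nat.lt_of_succ_lt hk⟩ := by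
        rw [ei, Fin.lt_def]
        have h1 := hg ⟨(i : ℕ) + 1, hk⟩
        have h2 : wp y z ⟨(i : ℕ) + 1, hk⟩ ≠ wp y z i := by
          intro e
          have := congrArg Fin.val (wp_inj y z e)
          simp at this
        have h3 : (wp y z ⟨(i : ℕ) + 1, hk⟩ : ℕ) ≠ wp y z i := fun e => h2 (Fin.ext e)
        simp only at h1
        omega
      refine ih _ _ _ (h.shift h₁ h₂ hk hlt) (fun j => ?_) (fun j hj => ?_)
      · rw [wp_sw]
        have hb : ∀ j : Fin m, (j : ℕ) ≤ max (v + 1) (i + 1) ∨ sw (i : ℕ) hk j = j := by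
          intro j
          rcases sw_cases (i : ℕ) hk j with ⟨h1, _⟩ | ⟨h1, _⟩ | ⟨_, _, h3⟩
          · left; omega
          · left; omega
          · right; exact h3
        rcases sw_cases (i : ℕ) hk (wp y z (sw (i : ℕ) hk j)) with ⟨h1, h2⟩ | ⟨h1, h2⟩ | ⟨_, _, h3⟩
        · omega
        · omega
        · rw [h3]
          rcases sw_cases (i : ℕ) hk j with ⟨g1, g2⟩ | ⟨g1, g2⟩ | ⟨_, _, g3⟩
          · have e : sw (i : ℕ) hk j = ⟨(i : ℕ) + 1, hk⟩ := Fin.ext g2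
            rw [e]
            have h5 := hg ⟨(i : ℕ) + 1, hk⟩
            simp only at h5
            omega
          · have e : sw (i : ℕ) hk j = i := Fin.ext g2
            rw [e, hi1]
            omega
          · rw [g3]
            exact hg j
      · rw [wp_sw] at hj
        have h1 : (wp y z (sw (i : ℕ) hk j) : ℕ) = v + 1 := by
          rcases sw_cases (i : ℕ) hk (wp y z (sw (i : ℕ) hk j)) with ⟨h1, h2⟩ | ⟨h1, h2⟩ |
            ⟨_, _, h3⟩
          · omega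
          · omega
          · rw [h3] at hj
            exact hj
        have h2 : sw (i : ℕ) hk j = i := wp_inj y z (Fin.ext (h1.trans hi1.symm))
        rcases sw_cases (i : ℕ) hk j with ⟨g1, g2⟩ | ⟨g1, g2⟩ | ⟨g1, _, g3⟩
        · rw [h2] at g2
          omega
        · omega
        · rw [g3] at h2
          rw [h2] at g1
          exact absurd rfl g1

theorem Mn.all (h₁ : Sys L₁) (h₂ : Sys L₂) (h : Mn L₁ L₂ x y z) (v : ℕ) :
    ∃ (x' : Fin m ≃ ρ) (y' z' : Fin m ≃ κ), Mn L₁ L₂ x' y' z' ∧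
      ∀ j, (wp y' z' j : ℕ) ≤ max (m - v) (j + 1) := by
  induction v with
  | zero =>
    refine ⟨x, y, z, h, fun j => ?_⟩
    have := (wp y z j).2
    omega
  | succ v ih =>
    obtain ⟨x', y', z', h', hg⟩ := ih
    by_cases hv : m - v = 0
    · refine ⟨x', y', z', h', fun j => ?_⟩
      have := hg j
      omega
    · refine Mn.step h₁ h₂ (v := m - (v + 1)) m x' y' z' h' (fun j => ?_) (fun j _ => by omega)
      have h1 := hg j
      have h2 : m - (v + 1) + 1 = m - v := by omega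
      rw [h2]
      exact h1

end Pool.Agent.Lib.MP_2c7063_coTG
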