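import Pool.Agent.Lib.MP_2c7063_coTG.Abs

/-! Existence of a minimal pair of chains and its permutation. -/

namespace Pool.Agent.Lib.MP_2c7063_coTG

open Finset

variable {m : ℕ} {ρ κ : Type*} [Fintype ρ] [Fintype κ] [DecidableEq ρ] [DecidableEq κ]
  {L L₁ L₂ : Finset ρ → Finset κ → Prop} {x : Fin m ≃ ρ} {y z : Fin m ≃ κ}

/-- a chain with given rows -/
theorem Sys.chain (hL : Sys L) (hκ : Fintype.card κ = m) (x : Fin m ≃ ρ) :
    ∃ y : Fin m ≃ κ, Chn L x y := by
  have key : ∀ k ≤ m, ∃ f : Fin m → κ, (∀ i j : Fin m, (i : ℕ) < k → (j : ℕ) < k →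
      f i = f j → i = j) ∧ ∀ i ≤ k, L (pre x i)
        ((univ.filter fun j : Fin m => (j : ℕ) < i).image f) := by
    intro k
    induction k with
    | zero =>
      intro _
      refine ⟨(Fintype.equivFinOfCardEq hκ).symm, fun i j hi => absurd hi (by omega),
        fun i hi => ?_⟩
      have : i = 0 := by omega
      subst this
      rw [pre_zero]
      simpa using hL.bot
    | succ k ih =>
      intro hk
      obtain ⟨f, hf, hch⟩ := ih (by omega)
      have hc : (((univ.filter fun j : Fin m => (j : ℕ) < k).image f)).card = k := by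
        rw [card_image_of_injOn]
        · have := card_pre (Equiv.refl (Fin m)) (i := k) (by omega)
          simpa [pre] using this
        · intro i hi j hj hij
          simp only [coe_filter, mem_univ, true_and, Set.mem_ofPred_eq] at hi hj
          exact hf i j hi hj hij
      obtain ⟨b, hb, hLb⟩ := hL.ext _ _ (hch k le_rfl) (by rw [card_pre x (by omega), hc])
        (x ⟨k, by omega⟩) (by rw [app_mem_pre]; simp)
      have hup : ∀ j : Fin m, (j : ℕ) < k →
          Function.update f ⟨k, by omega⟩ b j = f j := by
        intro j hj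
        apply Function.update_of_ne
        intro e
        rw [e] at hj
        simp at hj
      have hbn : ∀ j : Fin m, (j : ℕ) < k → f j ≠ b := by
        intro j hj e
        apply hb
        rw [mem_image]
        exact ⟨j, by simp [hj], e⟩
      refine ⟨Function.update f ⟨k, by omega⟩ b, fun i j hi hj hij => ?_, fun i hi => ?_⟩
      · by_cases h1 : (i : ℕ) < k
        · by_cases h2 : (j : ℕ) < k
          · rw [hup i h1, hup j h2] at hij
            exact hf i j h1 h2 hij
          · have e : j = ⟨k, by omega⟩ := Fin.ext (by simp only; omega)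
            rw [hup i h1, e, Function.update_self] at hij
            exact absurd hij (hbn i h1)
        · have e : i = ⟨k, by omega⟩ := Fin.ext (by simp only; omega)
          by_cases h2 : (j : ℕ) < k
          · rw [hup j h2, e, Function.update_self] at hij
            exact absurd hij.symm (hbn j h2)
          · exact Fin.ext (by omega)
      · by_cases h1 : i = k + 1
        · rw [h1, pre_succ x (by omega)]
          have e : (univ.filter fun j : Fin m => (j : ℕ) < k + 1) =
              insert ⟨k, by omega⟩ (univ.filter fun j : Fin m => (j : ℕ) < k) := by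
            ext j
            simp only [mem_filter, mem_univ, true_and, mem_insert, Fin.ext_iff]
            omega
          rw [e, image_insert, Function.update_self]
          have e2 : (univ.filter fun j : Fin m => (j : ℕ) < k).image
              (Function.update f ⟨k, by omega⟩ b) =
              (univ.filter fun j : Fin m => (j : ℕ) < k).image f := by
            apply image_congr
            intro j hj
            simp only [coe_filter, mem_univ, true_and, Set.mem_ofPred_eq] at hj
            exact hup j hj
          rw [e2]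
          exact hLb
        · have e2 : (univ.filter fun j : Fin m => (j : ℕ) < i).image
              (Function.update f ⟨k, by omega⟩ b) =
              (univ.filter fun j : Fin m => (j : ℕ) < i).image f := by
            apply image_congr
            intro j hj
            simp only [coe_filter, mem_univ, true_and, Set.mem_ofPred_eq] at hj
            exact hup j (by omega)
          rw [e2]
          exact hch i (by omega)
  obtain ⟨f, hf, hch⟩ := key m le_rfl
  have hbij : Function.Bijective f := by
    rw [Fintype.bijective_iff_injective_and_card]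
    exact ⟨fun i j h => hf i j i.2 j.2 h, by simp [hκ]⟩
  refine ⟨Equiv.ofBijective f hbij, fun i hi => ?_⟩
  have e : pre (Equiv.ofBijective f hbij) i =
      (univ.filter fun j : Fin m => (j : ℕ) < i).image f := by
    ext r
    obtain ⟨j, rfl⟩ := (Equiv.ofBijective f hbij).surjective r
    rw [app_mem_pre, Equiv.ofBijective_apply, mem_image]
    constructor
    · intro h
      exact ⟨j, by simp [h], rfl⟩
    · rintro ⟨j', h1, h2⟩
      rw [← hbij.1 h2]
      simpa using h1
  rw [e]
  exact hch i hi

theorem exists_Mn (h₁ : Sys L₁) (h₂ : Sys L₂) (hρ : Fintype.card ρ = m)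
    (hκ : Fintype.card κ = m) : ∃ (x : Fin m ≃ ρ) (y z : Fin m ≃ κ), Mn L₁ L₂ x y z := by
  classical
  have hex : ∃ n : ℕ, ∃ (x : Fin m ≃ ρ) (y z : Fin m ≃ κ), Stt L₁ L₂ x y z ∧
      (invs (wp y z)).card = n := by
    obtain ⟨y, hy⟩ := h₁.chain hκ (Fintype.equivFinOfCardEq hρ).symm
    obtain ⟨z, hz⟩ := h₂.chain hκ (Fintype.equivFinOfCardEq hρ).symm
    exact ⟨_, _, y, z, ⟨hy, hz⟩, rfl⟩
  obtain ⟨x, y, z, h, hn⟩ := Nat.find_spec hex
  refine ⟨x, y, z, h, fun x' y' z' h' => ?_⟩
  rw [hn]
  exact Nat.find_min' hex ⟨x', y', z', h', rfl⟩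

/-- there is no common cell -/
def NC (L₁ L₂ : Finset ρ → Finset κ → Prop) : Prop :=
  ∀ I J, I.card = J.card → I.Nonempty → I ≠ univ → L₁ I J → ¬ L₂ I J

theorem wp_eq (hnc : NC L₁ L₂) (h : Stt L₁ L₂ x y z)
    (hg : ∀ j, (wp y z j : ℕ) ≤ j + 1) (j : Fin m) : (wp y z j : ℕ) = (j + 1) % m := by
  have h1 : ∀ j : Fin m, (j : ℕ) + 1 < m → (wp y z j : ℕ) = j + 1 := by
    intro i hi
    by_contra hne
    have h2 : ∀ j : Fin m, (j : ℕ) < i + 1 → (wp y z j : ℕ) < i + 1 := by
      intro j hj
      have h3 := hg j
      by_cases h4 : j = i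
      · rw [h4] at h3 ⊢
        omega
      · have : (j : ℕ) ≠ i := fun e => h4 (Fin.ext e)
        omega
    have h3 : pre z (i + 1) ⊆ pre y (i + 1) := by
      intro r hr
      obtain ⟨j, rfl⟩ := z.surjective r
      rw [app_mem_pre] at hr
      rw [mem_pre]
      exact h2 j hr
    have h4 : pre z (i + 1) = pre y (i + 1) :=
      eq_of_subset_of_card_le h3 (by rw [card_pre y hi.le, card_pre z hi.le])
    have h5 := h.2 (i + 1) hi.le
    rw [h4] at h5
    refine hnc _ _ (by rw [card_pre x hi.le, card_pre y hi.le]) ?_ ?_ (h.1 (i + 1) hi.le) h5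
    · rw [← card_pos, card_pre x hi.le]
      omega
    · intro e
      have h6 := congrArg Finset.card e
      rw [card_pre x hi.le, card_univ, ← Fintype.card_congr x, Fintype.card_fin] at h6
      omega
  by_cases hj : (j : ℕ) + 1 < m
  · rw [h1 j hj, Nat.mod_eq_of_lt hj]
  · have hj2 : (j : ℕ) + 1 = m := by
      have := j.2
      omega
    rw [hj2, Nat.mod_self]
    have hm : 0 < m := by omega
    obtain ⟨i, hi⟩ := (Finite.injective_iff_surjective.1 (wp_inj y z)) (⟨0, hm⟩ : Fin m)
    have h3 : ¬ ((i : ℕ) + 1 < m) := by
      intro h4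
      have h5 := h1 i h4
      rw [hi] at h5
      simp at h5
    have h4 : i = j := Fin.ext (by
      have := i.2
      omega)
    rw [← h4, hi]

end Pool.Agent.Lib.MP_2c7063_coTG
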