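import Pool.Agent.Lib.MP_2c7063_coTG.Half

/-! The final form. -/

namespace Pool.Agent.Lib.MP_2c7063_coTG

open Set
open Pool.Agent.Lib.MP_2c7063_coD (cat cat_image_le cat_image_add cat_injOn encard_Iio)

variable {α : Type*} {M N : Matroid α} {B C : Set α} {x y z : ℕ → α} {c : ℕ → ℕ} {p r : ℕ}

theorem nxt_image_iff {s e : ℕ} {I J : Set ℕ} (hI : I ⊆ Ico s e) (hJ : J ⊆ Ico s e) :
    nxt s e '' J = nxt s e '' I ↔ I = J := by
  constructor
  · intro h
    ext i
    constructor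
    · intro hi
      have h1 : nxt s e i ∈ nxt s e '' J := by
        rw [h]
        exact ⟨i, hi, rfl⟩
      obtain ⟨j, hj, h2⟩ := h1
      rw [← nxt_inj (hJ hj).1 (hI hi).1 h2]
      exact hj
    · intro hi
      have h1 : nxt s e i ∈ nxt s e '' I := by
        rw [← h]
        exact ⟨i, hi, rfl⟩
      obtain ⟨j, hj, h2⟩ := h1
      rw [← nxt_inj (hI hj).1 (hJ hi).1 h2]
      exact hj
  · rintro rfl
    rfl

theorem mono_c (hm : ∀ n < p, c n < c (n + 1)) {n n' : ℕ} (h1 : n ≤ n') (h2 : n' ≤ p) :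
    c n ≤ c n' := by
  induction n' with
  | zero =>
    have : n = 0 := by omega
    rw [this]
  | succ n' ih =>
    rcases Nat.eq_or_lt_of_le h1 with h3 | h3
    · rw [h3]
    · exact (ih (by omega) (by omega)).trans (hm n' (by omega)).le

theorem exists_block (h0 : c 0 = 0) {i : ℕ} (hi : i < c p) :
    ∃ n < p, c n ≤ i ∧ i < c (n + 1) := by
  induction p with
  | zero =>
    rw [h0] at hi
    exact absurd hi (Nat.not_lt_zero i)
  | succ q ih =>
    rcases Nat.lt_or_ge i (c q) with h2 | h2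
    · obtain ⟨n, hn, h3⟩ := ih h2
      exact ⟨n, by omega, h3⟩
    · exact ⟨q, by omega, h2, hi⟩

theorem Tw.image_c' (h0 : c 0 = 0) (hm : ∀ n < p, c n < c (n + 1)) (hz : Tw c p y z) :
    ∀ n ≤ p, z '' Iio (c n) = y '' Iio (c n) := by
  intro n
  induction n with
  | zero =>
    intro _
    rw [h0]
    simp
  | succ n ih =>
    intro hn
    have h1 := (hm n hn).le
    rw [Iio_union_Ico h1, image_union, image_union, ih (by omega),
      hz.image_block hn (le_refl _), nxt_image]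

theorem Tw.image_sub {J : Set ℕ} (hz : Tw c p y z) {n : ℕ} (hn : n < p)
    (hJ : J ⊆ Ico (c n) (c (n + 1))) :
    z '' J = y '' (nxt (c n) (c (n + 1)) '' J) := by
  rw [← image_comp]
  apply image_congr
  intro j hj
  exact hz n hn j (hJ hj).1 (hJ hj).2

theorem rank_le (hN : N.IsBase B) (hr : B.encard = r) (h0 : c 0 = 0)
    (hm : ∀ n < p, c n < c (n + 1)) (hz : Tw c p y z) {i : ℕ} (hi : i ≤ c p)
    (hbase : N.IsBase ((C \ z '' Iio i) ∪ x '' Iio i)) :
    (r : ℕ∞) ≤ N.eRk ((C \ y '' Iio i) ∪ x '' Iio i) + 1 := by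
  have hU : (r : ℕ∞) = N.eRk ((C \ z '' Iio i) ∪ x '' Iio i) := by
    rw [hbase.eRk_eq_eRank, ← hN.encard_eq_eRank, hr]
  rcases Nat.eq_or_lt_of_le hi with h1 | h1
  · rw [h1, Tw.image_c' h0 hm hz p (le_refl _), ← h1] at hU
    rw [← hU]
    exact le_self_add
  · obtain ⟨n, hn, h2, h3⟩ := exists_block h0 h1
    have hsub : (C \ z '' Iio i) ∪ x '' Iio i ⊆
        insert (y (c n)) ((C \ y '' Iio i) ∪ x '' Iio i) := by
      rintro u (⟨hu1, hu2⟩ | hu)
      · by_cases hu3 : u ∈ y '' Iio i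
        · obtain ⟨j, hj, rfl⟩ := hu3
          simp only [mem_Iio] at hj
          rcases Nat.lt_trichotomy j (c n) with h4 | h4 | h4
          · exfalso
            apply hu2
            have h5 : y j ∈ z '' Iio (c n) := by
              rw [Tw.image_c' h0 hm hz n hn.le]
              exact ⟨j, h4, rfl⟩
            exact image_mono (Iio_subset_Iio h2) h5
          · rw [h4]
            exact mem_insert _ _
          · exfalso
            apply hu2
            refine ⟨j - 1, by simp only [mem_Iio]; omega, ?_⟩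
            rw [hz n hn (j - 1) (by omega) (by omega)]
            congr 1
            unfold nxt
            rw [if_neg (by omega)]
            omega
        · exact Or.inr (Or.inl ⟨hu1, hu3⟩)
      · exact Or.inr (Or.inr hu)
    rw [hU]
    exact (N.eRk_mono hsub).trans (N.eRk_insert_le_add_one _ _)

theorem final (hMB : M.IsBase B) (hMC : M.IsBase C) (hNB : N.IsBase B) (hNC : N.IsBase C)
    (hd : Disjoint B C) (hr : B.encard = r)
    (k : ℕ) (a b : ℕ → α) (ha : InjOn a (Iio k)) (hb : InjOn b (Iio k)) (haB : a '' Iio k ⊆ B)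
    (hbC : b '' Iio k ⊆ C)
    (hab : ∀ i ≤ k, M.IsBase ((B \ a '' Iio i) ∪ b '' Iio i) ∧
      N.IsBase ((C \ b '' Iio i) ∪ a '' Iio i)) :
    ∃ (x y z : ℕ → α) (c : ℕ → ℕ) (p : ℕ),
      InjOn x (Iio r) ∧ InjOn y (Iio r) ∧ x '' Iio r = B ∧ y '' Iio r = C ∧
      c 0 = 0 ∧ c p = r ∧ (∀ n < p, c n < c (n + 1)) ∧
      (∀ n < p, ∀ i, c n ≤ i → i < c (n + 1) →
        z i = y (if i + 1 = c (n + 1) then c n else i + 1)) ∧
      (∀ i ≤ r, M.IsBase ((B \ x '' Iio i) ∪ y '' Iio i) ∧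
        N.IsBase ((C \ z '' Iio i) ∪ x '' Iio i) ∧
        (r : ℕ∞) ≤ N.eRk ((C \ y '' Iio i) ∪ x '' Iio i) + 1) ∧
      (∀ n < p, ∀ I J, I ⊆ Ico (c n) (c (n + 1)) → J ⊆ Ico (c n) (c (n + 1)) →
        (M.IsBase ((B \ (x '' Iio (c n) ∪ x '' I)) ∪ (y '' Iio (c n) ∪ y '' J)) ↔ I = J) ∧
        (N.IsBase ((C \ (z '' Iio (c n) ∪ z '' J)) ∪ (x '' Iio (c n) ∪ x '' I)) ↔ I = J)) ∧
      (∀ j < k, c (j + 1) = j + 1 ∧ x j = a j ∧ y j = b j) ∧
      (M = N → r ≤ 12 * (Nat.log 2 r + 1) ^ 2 * (p + 1) ∧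
        ∀ n < p, 2 * (c (n + 1) - c n) ≤ r + 1) := by
  obtain ⟨x, y, z, c, p, h1, h2, h3, h4, h5, h6, h7, h8, h9, h10, h11, h12⟩ :=
    main hMB hMC hNB hNC hd hr k a b ha hb haB hbC hab
  refine ⟨x, y, z, c, p, h1, h2, h3, h4, h5, h6, h7, h8, ?_, ?_, h11, fun hMN => ⟨h12 hMN, ?_⟩⟩
  · intro i hi
    refine ⟨(h9 i hi).1, (h9 i hi).2, ?_⟩
    exact rank_le hNB hr h5 h7 h8 (by rw [h6]; exact hi) (h9 i hi).2
  · intro n hn I J hI hJ
    refine ⟨(h10 n hn I J hI hJ).1, ?_⟩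
    have hJ' : nxt (c n) (c (n + 1)) '' J ⊆ Ico (c n) (c (n + 1)) :=
      (image_mono hJ).trans nxt_image.subset
    have h13 := (h10 n hn I _ hI hJ').2
    rw [← Tw.image_sub h8 hn hJ, ← Tw.image_c' h5 h7 h8 n hn.le] at h13
    rw [h13]
    exact nxt_image_iff hI hJ
  · intro n hn
    subst hMN
    have hcr : c (n + 1) ≤ r := by
      rw [← h6]
      exact mono_c h7 hn (le_refl _)
    refine Blk.half (h10 n hn) (h7 n hn) hd hMB hMC hr
      (by rw [← hMB.encard_eq_encard_of_isBase hMC, hr]) (h1.mono (Iio_subset_Iio hcr))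
      (h2.mono (Iio_subset_Iio hcr)) ?_ ?_
    · rw [← h3]
      exact image_mono (Iio_subset_Iio hcr)
    · rw [← h4]
      exact image_mono (Iio_subset_Iio hcr)

end Pool.Agent.Lib.MP_2c7063_coTG
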