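import Pool.Agent.Lib.MP_2c7063_coTG.Mat
import Pool.Agent.Lib.MP_2c7063_coD.Exch

/-! The structure between two consecutive exact pairs. -/

namespace Pool.Agent.Lib.MP_2c7063_coTG

open Set

variable {α : Type*} {M N : Matroid α}

theorem diag_iff {P : Set α} (hP : M.IsBase P) (hfin : P.Finite) {m : ℕ} {b u : ℕ → α}
    (hb : ∀ j < m, b j ∈ P) (hu : ∀ j < m, u j ∈ M.E) (huP : ∀ j < m, u j ∉ P)
    (h : ∀ j < m, ∀ l < m, (u l ∉ M.closure (P \ {b j}) ↔ l = j)) {I J : Set ℕ}
    (hI : I ⊆ Iio m) (hJ : J ⊆ Iio m) : M.IsBase ((P \ b '' I) ∪ u '' J) ↔ I = J := by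
  classical
  have huinj : ∀ j < m, ∀ l < m, u j = u l → j = l := by
    intro j hj l hl hjl
    have h1 := (h l hl l hl).2 rfl
    rw [← hjl] at h1
    exact (h l hl j hj).1 h1
  have hdiag : ∀ I : Set ℕ, I ⊆ Iio m → M.IsBase ((P \ b '' I) ∪ u '' I) := by
    intro I hI
    have hIf : I.Finite := (finite_Iio m).subset hI
    have h1 := Pool.Agent.Lib.MP_2c7063_coD.diag_exchange hP hfin hIf.toFinset b u
      (fun j hj => hb j (hI (hIf.mem_toFinset.1 hj)))
      (fun j hj => hu j (hI (hIf.mem_toFinset.1 hj)))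
      (fun j hj l hl => h j (hI (hIf.mem_toFinset.1 hj)) l (hI (hIf.mem_toFinset.1 hl)))
    rwa [hIf.coe_toFinset] at h1
  constructor
  · intro hbase
    have hJI : J ⊆ I := by
      intro j hj
      by_contra hjI
      have h1 : u j ∈ M.closure (P \ b '' I) := by
        apply clo hP (hu j (hJ hj))
        rintro _ ⟨i, hi, rfl⟩ _
        by_contra hc
        exact hjI (by rw [(h i (hI hi) j (hJ hj)).1 hc]; exact hi)
      have h2 : P \ b '' I ⊆ ((P \ b '' I) ∪ u '' J) \ {u j} := by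
        intro z hz
        refine ⟨Or.inl hz, fun h3 => huP j (hJ hj) ?_⟩
        rw [← mem_singleton_iff.1 h3]
        exact hz.1
      exact hbase.indep.notMem_closure_sdiff_of_mem (Or.inr ⟨j, hj, rfl⟩)
        (M.closure_subset_closure h2 h1)
    have h3 := hbase.eq_of_subset_isBase (hdiag I hI)
      (union_subset_union_right _ (image_mono hJI))
    apply Subset.antisymm _ hJI
    intro i hi
    have h4 : u i ∈ (P \ b '' I) ∪ u '' J := by
      rw [h3]
      exact Or.inr ⟨i, hi, rfl⟩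
    rcases h4 with h4 | ⟨j, hj, h4⟩
    · exact absurd h4.1 (huP i (hI hi))
    · rw [← huinj j (hJ hj) i (hI hi) h4]
      exact hj
  · rintro rfl
    exact hdiag I hI

theorem single_iff {P : Set α} {a b : α} (hP : M.IsBase P) (ha : a ∈ P) (hb : b ∈ M.E)
    (hbP : b ∉ P) : M.IsBase (insert b (P \ {a})) ↔ b ∉ M.closure (P \ {a}) := by
  constructor
  · intro h h1
    have h2 := h.indep.notMem_closure_sdiff_of_mem (mem_insert b _)
    rw [insert_sdiff_of_mem _ (mem_singleton b), sdiff_singleton_eq_self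
      (fun h3 => hbP h3.1)] at h2
    exact h2 h1
  · intro h
    exact hP.exchange_base_of_notMem_closure ha h hb

/-- the cyclic successor in the interval from `s` to `e - 1` -/
def nxt (s e i : ℕ) : ℕ := if i + 1 = e then s else i + 1

theorem nxt_mem {s e i : ℕ} (h1 : s ≤ i) (h2 : i < e) : s ≤ nxt s e i ∧ nxt s e i < e := by
  unfold nxt
  split_ifs with h
  · omega
  · omega

theorem nxt_inj {s e i j : ℕ} (hi : s ≤ i) (hj : s ≤ j)
    (h : nxt s e i = nxt s e j) : i = j := by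
  unfold nxt at h
  split_ifs at h <;> omega

theorem nxt_surj {s e j : ℕ} (hj : s ≤ j) (hj' : j < e) :
    ∃ i, s ≤ i ∧ i < e ∧ nxt s e i = j := by
  rcases Nat.eq_or_lt_of_le hj with h | h
  · refine ⟨e - 1, by omega, by omega, ?_⟩
    unfold nxt
    rw [if_pos (by omega)]
    exact h
  · refine ⟨j - 1, by omega, by omega, ?_⟩
    unfold nxt
    rw [if_neg (by omega)]
    omega

theorem nxt_zero {m i : ℕ} (h : i < m) : nxt 0 m i = (i + 1) % m := by
  unfold nxt
  split_ifs with h1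
  · rw [h1, Nat.mod_self]
  · rw [Nat.mod_eq_of_lt (by omega)]

/-- both windows are bases -/
def Exa (M N : Matroid α) (B C S T : Set α) : Prop :=
  S ⊆ B ∧ T ⊆ C ∧ M.IsBase ((B \ S) ∪ T) ∧ N.IsBase ((C \ T) ∪ S)

theorem win_eq {κ : Type*} {B S S' T : Set α} (hS : S ⊆ S') (hS' : S' ⊆ B)
    (I : Finset ↥(S' \ S)) (J : Finset κ) (g : κ → α) :
    win ((B \ S') ∪ T) (Subtype.val : ↥(S' \ S) → α) g I J =
      (B \ (S ∪ Subtype.val '' {r | r ∈ I})) ∪ (T ∪ g '' {k | k ∈ J}) := by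
  ext z
  simp only [win, mem_union, mem_sdiff, mem_image, mem_ofPred_eq]
  constructor
  · rintro (((⟨h1, h2⟩ | h1) | ⟨r, hr, rfl⟩) | h1)
    · refine Or.inl ⟨h1, ?_⟩
      rintro (h3 | ⟨r, _, rfl⟩)
      · exact h2 (hS h3)
      · exact h2 r.2.1
    · exact Or.inr (Or.inl h1)
    · refine Or.inl ⟨hS' r.2.1, ?_⟩
      rintro (h3 | ⟨r', hr', h3⟩)
      · exact r.2.2 h3
      · exact hr (by rw [← Subtype.ext h3]; exact hr')
    · exact Or.inr (Or.inr h1)
  · rintro (⟨h1, h2⟩ | h1 | h1)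
    · by_cases h3 : z ∈ S'
      · refine Or.inl (Or.inr ⟨⟨z, h3, fun h4 => h2 (Or.inl h4)⟩, fun h4 => h2 (Or.inr ?_), rfl⟩)
        exact ⟨_, h4, rfl⟩
      · exact Or.inl (Or.inl (Or.inl ⟨h1, h3⟩))
    · exact Or.inl (Or.inl (Or.inr h1))
    · exact Or.inr h1

theorem frm_of {B C S S' T T' : Set α} (hd : Disjoint B C) (hS' : S' ⊆ B)
    (hT : T ⊆ T') (hT' : T' ⊆ C) :
    Frm ((B \ S') ∪ T) (Subtype.val : ↥(S' \ S) → α) (Subtype.val : ↥(T' \ T) → α) where
  fi := Subtype.val_injective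
  gi := Subtype.val_injective
  fg := fun a b h => disjoint_left.1 hd (hS' a.2.1) (by rw [h]; exact hT' b.2.1)
  fK := by
    rintro a (h | h)
    · exact h.2 a.2.1
    · exact disjoint_left.1 hd (hS' a.2.1) (hT' (hT h))
  gK := by
    rintro b (h | h)
    · exact disjoint_left.1 hd h.1 (hT' b.2.1)
    · exact b.2.2 h

theorem gap {B C S T S' T' : Set α} (hd : Disjoint B C) (hBf : B.Finite) (hCf : C.Finite)
    (h : Exa M N B C S T) (h' : Exa M N B C S' T') (hS : S ⊆ S') (hT : T ⊆ T') (hne : S ≠ S')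
    (hgap : ∀ S₁ T₁, Exa M N B C S₁ T₁ → S ⊆ S₁ → S₁ ⊆ S' → T ⊆ T₁ → T₁ ⊆ T' →
      S₁ = S ∨ S₁ = S') :
    ∃ (m : ℕ) (x y : ℕ → α), 0 < m ∧ InjOn x (Iio m) ∧ InjOn y (Iio m) ∧
      x '' Iio m = S' \ S ∧ y '' Iio m = T' \ T ∧
      ∀ I J, I ⊆ Iio m → J ⊆ Iio m →
        (M.IsBase ((B \ (S ∪ x '' I)) ∪ (T ∪ y '' J)) ↔ I = J) ∧
        (N.IsBase ((C \ (T ∪ y '' J)) ∪ (S ∪ x '' I)) ↔ J = nxt 0 m '' I) := by
  classical
  obtain ⟨hSB, hTC, hM, hN⟩ := h
  obtain ⟨hSB', hTC', hM', hN'⟩ := h'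
  have hρf : (S' \ S).Finite := hBf.subset (sdiff_subset.trans hSB')
  have hκf : (T' \ T).Finite := hCf.subset (sdiff_subset.trans hTC')
  have : Fintype ↥(S' \ S) := hρf.fintype
  have : Fintype ↥(T' \ T) := hκf.fintype
  have F1 : Frm ((B \ S') ∪ T) (Subtype.val : ↥(S' \ S) → α) (Subtype.val : ↥(T' \ T) → α) :=
    frm_of hd hSB' hT hTC'
  have F2 : Frm ((C \ T') ∪ S) (Subtype.val : ↥(T' \ T) → α) (Subtype.val : ↥(S' \ S) → α) :=
    frm_of hd.symm hTC' hS hSB'
  have e1 : ∀ (I : Finset ↥(S' \ S)) (J : Finset ↥(T' \ T)),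
      win ((B \ S') ∪ T) (Subtype.val : ↥(S' \ S) → α) (Subtype.val : ↥(T' \ T) → α) I J =
      (B \ (S ∪ Subtype.val '' {r | r ∈ I})) ∪ (T ∪ Subtype.val '' {k | k ∈ J}) :=
    fun I J => win_eq hS hSB' I J _
  have e2 : ∀ (I : Finset ↥(S' \ S)) (J : Finset ↥(T' \ T)),
      win ((C \ T') ∪ S) (Subtype.val : ↥(T' \ T) → α) (Subtype.val : ↥(S' \ S) → α) J I =
      (C \ (T ∪ Subtype.val '' {k | k ∈ J})) ∪ (S ∪ Subtype.val '' {r | r ∈ I}) :=
    fun I J => win_eq hT hTC' J I _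
  have im0 : ∀ (Z : Set α), (Subtype.val '' {r : ↥Z | r ∈ (∅ : Finset ↥Z)}) = (∅ : Set α) := by
    intro Z
    simp
  have imS : (Subtype.val '' {r : ↥(S' \ S) | r ∈ (Finset.univ : Finset ↥(S' \ S))}) =
      S' \ S := by
    ext z
    simp
  have imT : (Subtype.val '' {r : ↥(T' \ T) | r ∈ (Finset.univ : Finset ↥(T' \ T))}) =
      T' \ T := by
    ext z
    simp
  have uS : S ∪ (S' \ S) = S' := union_sdiff_cancel hS
  have uT : T ∪ (T' \ T) = T' := union_sdiff_cancel hT
  have b1 : M.IsBase (win ((B \ S') ∪ T) (Subtype.val : ↥(S' \ S) → α)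
      (Subtype.val : ↥(T' \ T) → α) ∅ ∅) := by
    rw [e1, im0, im0, union_empty, union_empty]
    exact hM
  have b2 : M.IsBase (win ((B \ S') ∪ T) (Subtype.val : ↥(S' \ S) → α)
      (Subtype.val : ↥(T' \ T) → α) Finset.univ Finset.univ) := by
    rw [e1, imS, imT, uS, uT]
    exact hM'
  have b3 : N.IsBase (win ((C \ T') ∪ S) (Subtype.val : ↥(T' \ T) → α)
      (Subtype.val : ↥(S' \ S) → α) ∅ ∅) := by
    rw [e2, im0, im0, union_empty, union_empty]
    exact hN
  have b4 : N.IsBase (win ((C \ T') ∪ S) (Subtype.val : ↥(T' \ T) → α)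
      (Subtype.val : ↥(S' \ S) → α) Finset.univ Finset.univ) := by
    rw [e2, imS, imT, uS, uT]
    exact hN'
  have hsA := sysA F1 b1 b2
  have hsB := sysB F2 b3 b4
  have hP : M.IsBase ((B \ S) ∪ T) := hM
  -- cardinalities
  have hKf : ((B \ S') ∪ T).Finite := (hBf.sdiff).union (hCf.subset hTC)
  have hcard : (S' \ S).encard = (T' \ T).encard := by
    have h1 := hM.encard_eq_encard_of_isBase hM'
    have h2 : (B \ S) ∪ T = ((B \ S') ∪ T) ∪ (S' \ S) := by
      ext z
      simp only [mem_union, mem_sdiff]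
      constructor
      · rintro (⟨h3, h4⟩ | h3)
        · by_cases h5 : z ∈ S'
          · exact Or.inr ⟨h5, h4⟩
          · exact Or.inl (Or.inl ⟨h3, h5⟩)
        · exact Or.inl (Or.inr h3)
      · rintro ((⟨h3, h4⟩ | h3) | ⟨h3, h4⟩)
        · exact Or.inl ⟨h3, fun h5 => h4 (hS h5)⟩
        · exact Or.inr h3
        · exact Or.inl ⟨hSB' h3, h4⟩
    have h3 : (B \ S') ∪ T' = ((B \ S') ∪ T) ∪ (T' \ T) := by
      rw [union_assoc, uT]
    have d1 : Disjoint ((B \ S') ∪ T) (S' \ S) := by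
      rw [disjoint_left]
      rintro z (h4 | h4) h5
      · exact h4.2 h5.1
      · exact disjoint_left.1 hd (hSB' h5.1) (hTC h4)
    have d2 : Disjoint ((B \ S') ∪ T) (T' \ T) := by
      rw [disjoint_left]
      rintro z (h4 | h4) h5
      · exact disjoint_left.1 hd h4.1 (hTC' h5.1)
      · exact h5.2 h4
    rw [h2, h3, encard_union_eq d1, encard_union_eq d2] at h1
    exact (ENat.add_right_injective_of_ne_top
      (by rw [Ne, encard_eq_top_iff]; exact not_infinite.2 hKf)) h1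
  obtain ⟨m, hm⟩ : ∃ m : ℕ, Fintype.card ↥(S' \ S) = m := ⟨_, rfl⟩
  have hm' : Fintype.card ↥(T' \ T) = m := by
    rw [← hm]
    have h1 : (S' \ S).encard = (Fintype.card ↥(S' \ S) : ℕ∞) := by
      rw [← ENat.card_coe_set_eq, ENat.card_eq_coe_fintype_card]
    have h2 : (T' \ T).encard = (Fintype.card ↥(T' \ T) : ℕ∞) := by
      rw [← ENat.card_coe_set_eq, ENat.card_eq_coe_fintype_card]
    rw [h1, h2] at hcard
    exact_mod_cast hcard.symm
  have hm0 : 0 < m := by
    rw [← hm, Fintype.card_pos_iff]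
    by_contra hc
    rw [not_nonempty_iff] at hc
    apply hne
    apply Subset.antisymm hS
    intro z hz
    by_contra hzS
    exact hc.elim ⟨z, hz, hzS⟩
  have hnc : NC (fun I J => M.IsBase (win ((B \ S') ∪ T) (Subtype.val : ↥(S' \ S) → α)
      (Subtype.val : ↥(T' \ T) → α) I J))
      (fun I J => N.IsBase (win ((C \ T') ∪ S) (Subtype.val : ↥(T' \ T) → α)
      (Subtype.val : ↥(S' \ S) → α) J I)) := by
    intro I J _ hI1 hI2 hL1 hL2
    rw [e1] at hL1
    rw [e2] at hL2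
    have h1 : Exa M N B C (S ∪ Subtype.val '' {r | r ∈ I}) (T ∪ Subtype.val '' {k | k ∈ J}) := by
      refine ⟨union_subset hSB ?_, union_subset hTC ?_, hL1, hL2⟩
      · rintro _ ⟨r, _, rfl⟩
        exact hSB' r.2.1
      · rintro _ ⟨r, _, rfl⟩
        exact hTC' r.2.1
    rcases hgap _ _ h1 subset_union_left (union_subset hS (by
      rintro _ ⟨r, _, rfl⟩
      exact r.2.1)) subset_union_left (union_subset hT (by
      rintro _ ⟨r, _, rfl⟩
      exact r.2.1)) with h2 | h2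
    · obtain ⟨a, ha⟩ := hI1
      have h3 : (a : α) ∈ S ∪ Subtype.val '' {r | r ∈ I} := Or.inr ⟨a, ha, rfl⟩
      exact a.2.2 (h2.subset h3)
    · apply hI2
      rw [Finset.eq_univ_iff_forall]
      intro a
      have h3 : (a : α) ∈ S ∪ Subtype.val '' {r | r ∈ I} := by
        rw [h2]
        exact a.2.1
      rcases h3 with h3 | ⟨r, hr, h3⟩
      · exact absurd h3 a.2.2
      · rw [← Subtype.ext h3]
        exact hr
  obtain ⟨X, Y, hX, hY, hA, hB, hs1, hs2⟩ := abs_main hsA hsB hnc hm0 hm hm'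
  have hWX : ∀ i, W X i 1 = {X i} := by
    intro i
    rw [W_succ, W_zero]
    rfl
  have hWY : ∀ i, W Y i 1 = {Y i} := by
    intro i
    rw [W_succ, W_zero]
    rfl
  have hXs : ∀ j l, j < m → l < m → X j = X l → j = l := by
    intro j l hj hl hjl
    have h1 := (hX j l).1 hjl
    rwa [Nat.mod_eq_of_lt hj, Nat.mod_eq_of_lt hl] at h1
  have hYs : ∀ j l, j < m → l < m → Y j = Y l → j = l := by
    intro j l hj hl hjl
    have h1 := (hY j l).1 hjl
    rwa [Nat.mod_eq_of_lt hj, Nat.mod_eq_of_lt hl] at h1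
  have hx1 : ∀ j, ((X j : α)) ∈ (B \ S) ∪ T := fun j => Or.inl ⟨hSB' (X j).2.1, (X j).2.2⟩
  have hx2 : ∀ j, ((X j : α)) ∉ (C \ T) ∪ S := by
    rintro j (h1 | h1)
    · exact disjoint_left.1 hd (hSB' (X j).2.1) h1.1
    · exact (X j).2.2 h1
  have hy1 : ∀ j, ((Y j : α)) ∈ (C \ T) ∪ S := fun j => Or.inl ⟨hTC' (Y j).2.1, (Y j).2.2⟩
  have hy2 : ∀ j, ((Y j : α)) ∉ (B \ S) ∪ T := by
    rintro j (h1 | h1)
    · exact disjoint_left.1 hd h1.1 (hTC' (Y j).2.1)
    · exact (Y j).2.2 h1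
  have hxE : ∀ j, ((X j : α)) ∈ N.E := fun j => hN'.subset_ground (Or.inr (X j).2.1)
  have hyE : ∀ j, ((Y j : α)) ∈ M.E := fun j => hM'.subset_ground (Or.inr (Y j).2.1)
  have w1 : ∀ a b, win ((B \ S') ∪ T) (Subtype.val : ↥(S' \ S) → α)
      (Subtype.val : ↥(T' \ T) → α) {X a} {Y b} =
      insert (Y b : α) (((B \ S) ∪ T) \ {(X a : α)}) := by
    intro a b
    have h1 : ({Y b} : Finset ↥(T' \ T)) = insert (Y b) ∅ := rfl
    rw [h1, win_col]
    congr 1
    have h2 : (B \ S) ∪ T = win ((B \ S') ∪ T) (Subtype.val : ↥(S' \ S) → α)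
      (Subtype.val : ↥(T' \ T) → α) ∅ ∅ := by
      rw [e1, im0, im0, union_empty, union_empty]
    have h3 : ({X a} : Finset ↥(S' \ S)) = insert (X a) ∅ := rfl
    rw [h2, win_row (Finset.notMem_empty (X a)), insert_sdiff_of_mem _ (mem_singleton _),
      sdiff_singleton_eq_self (F1.row_notMem (Finset.mem_insert_self _ _)), h3]
  have w2 : ∀ a b, win ((C \ T') ∪ S) (Subtype.val : ↥(T' \ T) → α)
      (Subtype.val : ↥(S' \ S) → α) {Y b} {X a} =
      insert (X a : α) (((C \ T) ∪ S) \ {(Y b : α)}) := by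
    intro a b
    have h1 : ({X a} : Finset ↥(S' \ S)) = insert (X a) ∅ := rfl
    rw [h1, win_col]
    congr 1
    have h2 : (C \ T) ∪ S = win ((C \ T') ∪ S) (Subtype.val : ↥(T' \ T) → α)
      (Subtype.val : ↥(S' \ S) → α) ∅ ∅ := by
      rw [e2, im0, im0, union_empty, union_empty]
    have h3 : ({Y b} : Finset ↥(T' \ T)) = insert (Y b) ∅ := rfl
    rw [h2, win_row (Finset.notMem_empty (Y b)), insert_sdiff_of_mem _ (mem_singleton _),
      sdiff_singleton_eq_self (F2.row_notMem (Finset.mem_insert_self _ _)), h3]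
  have hPf : ((B \ S) ∪ T).Finite := (hBf.sdiff).union (hCf.subset hTC)
  have hQf : ((C \ T) ∪ S).Finite := (hCf.sdiff).union (hBf.subset hSB)
  refine ⟨m, fun j => (X j : α), fun j => (Y j : α), hm0, ?_, ?_, ?_, ?_, ?_⟩
  · intro j hj l hl hjl
    exact hXs j l hj hl (Subtype.ext hjl)
  · intro j hj l hl hjl
    exact hYs j l hj hl (Subtype.ext hjl)
  · ext z
    constructor
    · rintro ⟨j, _, rfl⟩
      exact (X j).2
    · intro hz
      have h1 : (⟨z, hz⟩ : ↥(S' \ S)) ∈ W X 0 m := by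
        rw [hX.univ hm]
        exact Finset.mem_univ _
      obtain ⟨t, _, ht, h2⟩ := mem_W.1 h1
      exact ⟨t, by simp only [mem_Iio]; omega, by simp only [h2]⟩
  · ext z
    constructor
    · rintro ⟨j, _, rfl⟩
      exact (Y j).2
    · intro hz
      have h1 : (⟨z, hz⟩ : ↥(T' \ T)) ∈ W Y 0 m := by
        rw [hY.univ hm']
        exact Finset.mem_univ _
      obtain ⟨t, _, ht, h2⟩ := mem_W.1 h1
      exact ⟨t, by simp only [mem_Iio]; omega, by simp only [h2]⟩
  · intro I J hI hJ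
    constructor
    · have h1 : (B \ (S ∪ (fun j => (X j : α)) '' I)) ∪ (T ∪ (fun j => (Y j : α)) '' J) =
          (((B \ S) ∪ T) \ (fun j => (X j : α)) '' I) ∪ (fun j => (Y j : α)) '' J := by
        ext z
        simp only [mem_union, mem_sdiff]
        constructor
        · rintro (⟨h2, h3⟩ | h2 | h2)
          · exact Or.inl ⟨Or.inl ⟨h2, fun h4 => h3 (Or.inl h4)⟩, fun h4 => h3 (Or.inr h4)⟩
          · refine Or.inl ⟨Or.inr h2, ?_⟩
            rintro ⟨j, _, rfl⟩
            exact disjoint_left.1 hd (hSB' (X j).2.1) (hTC h2)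
          · exact Or.inr h2
        · rintro (⟨⟨h2, h3⟩ | h2, h4⟩ | h2)
          · refine Or.inl ⟨h2, ?_⟩
            rintro (h5 | h5)
            · exact h3 h5
            · exact h4 h5
          · exact Or.inr (Or.inl h2)
          · exact Or.inr (Or.inr h2)
      rw [h1]
      refine diag_iff hM hPf (fun j _ => hx1 j) (fun j _ => hyE j) (fun j _ => hy2 j) ?_ hI hJ
      intro j hj l hl
      rw [← single_iff hM (hx1 j) (hyE l) (hy2 l), ← w1 j l]
      constructor
      · intro h2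
        have h3 := hs1 j l h2
        rw [Nat.mod_eq_of_lt hj, Nat.mod_eq_of_lt hl] at h3
        exact h3.symm
      · rintro rfl
        have h2 := hA l 1 hm0
        rw [hWX, hWY] at h2
        exact h2
    · have hnx : ∀ j < m, Y (nxt 0 m j) = Y (j + 1) := by
        intro j hj
        rw [nxt_zero hj]
        exact (hY _ _).2 (Nat.mod_mod _ _)
      have hbm : ∀ j < m, ∀ l < m,
          ((X l : α) ∉ N.closure (((C \ T) ∪ S) \ {(Y (nxt 0 m j) : α)}) ↔ l = j) := by
        intro j hj l hl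
        rw [← single_iff hN (hy1 _) (hxE l) (hx2 l), ← w2 l]
        constructor
        · intro h2
          rw [hnx j hj] at h2
          have h3 := hs2 l (j + 1) h2
          have h4 : l + 1 ≡ j + 1 [MOD m] := h3
          have h5 : l ≡ j [MOD m] := Nat.ModEq.add_right_cancel' 1 h4
          have h6 : l % m = j % m := h5
          rwa [Nat.mod_eq_of_lt hj, Nat.mod_eq_of_lt hl] at h6
        · rintro rfl
          rw [hnx l hl]
          have h2 := hB l 1 hm0
          rw [hWX, hWY] at h2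
          exact h2
      have hJI : J = nxt 0 m '' {i | i < m ∧ nxt 0 m i ∈ J} := by
        ext j
        constructor
        · intro hj
          obtain ⟨i, _, hi2, hi3⟩ := nxt_surj (s := 0) (Nat.zero_le j) (hJ hj)
          exact ⟨i, ⟨hi2, by rw [hi3]; exact hj⟩, hi3⟩
        · rintro ⟨i, ⟨_, hi⟩, rfl⟩
          exact hi
      have h1 : (C \ (T ∪ (fun j => (Y j : α)) '' J)) ∪ (S ∪ (fun j => (X j : α)) '' I) =
          (((C \ T) ∪ S) \ (fun j => (Y (nxt 0 m j) : α)) '' {i | i < m ∧ nxt 0 m i ∈ J}) ∪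
            (fun j => (X j : α)) '' I := by
        have h0 : (fun j => (Y (nxt 0 m j) : α)) '' {i | i < m ∧ nxt 0 m i ∈ J} =
            (fun j => (Y j : α)) '' J := by
          conv_rhs => rw [hJI]
          rw [← image_comp]
          rfl
        rw [h0]
        ext z
        simp only [mem_union, mem_sdiff]
        constructor
        · rintro (⟨h2, h3⟩ | h2 | h2)
          · exact Or.inl ⟨Or.inl ⟨h2, fun h4 => h3 (Or.inl h4)⟩, fun h4 => h3 (Or.inr h4)⟩
          · refine Or.inl ⟨Or.inr h2, ?_⟩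
            rintro ⟨j, _, rfl⟩
            exact disjoint_left.1 hd (hSB h2) (hTC' (Y j).2.1)
          · exact Or.inr h2
        · rintro (⟨⟨h2, h3⟩ | h2, h4⟩ | h2)
          · refine Or.inl ⟨h2, ?_⟩
            rintro (h5 | h5)
            · exact h3 h5
            · exact h4 h5
          · exact Or.inr (Or.inl h2)
          · exact Or.inr (Or.inr h2)
      rw [h1, diag_iff hN hQf (fun j _ => hy1 _) (fun j _ => hxE j) (fun j _ => hx2 j) hbm
        (fun i hi => hi.1) hI]
      constructor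
      · intro h2
        rw [← h2]
        exact hJI
      · intro h2
        ext i
        constructor
        · rintro ⟨hi1, hi2⟩
          rw [h2] at hi2
          obtain ⟨j, hj, hj2⟩ := hi2
          rw [← nxt_inj (Nat.zero_le j) (Nat.zero_le i) hj2]
          exact hj
        · intro hi
          refine ⟨hI hi, ?_⟩
          rw [h2]
          exact ⟨i, hi, rfl⟩

end Pool.Agent.Lib.MP_2c7063_coTG
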