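import Pool.Agent.Lib.MP_2c7063_coTG.Gap
import Pool.Agent.Lib.MP_2c7063_coD.Main

/-! Orderings of the two bases with a block structure. -/

namespace Pool.Agent.Lib.MP_2c7063_coTG

open Set
open Pool.Agent.Lib.MP_2c7063_coD (cat cat_image_le cat_image_add cat_injOn encard_Iio)

variable {α : Type*} {M N : Matroid α} {B C : Set α}

/-- the block from `s` to `e - 1` -/
def Blk (M N : Matroid α) (B C : Set α) (x y : ℕ → α) (s e : ℕ) : Prop :=
  ∀ I J, I ⊆ Ico s e → J ⊆ Ico s e →
    (M.IsBase ((B \ (x '' Iio s ∪ x '' I)) ∪ (y '' Iio s ∪ y '' J)) ↔ I = J) ∧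
    (N.IsBase ((C \ (y '' Iio s ∪ y '' J)) ∪ (x '' Iio s ∪ x '' I)) ↔ J = nxt s e '' I)

/-- a sequence of blocks -/
structure BS (M N : Matroid α) (B C : Set α) (x y : ℕ → α) (c : ℕ → ℕ) (p : ℕ) : Prop where
  c0 : c 0 = 0
  cm : ∀ n < p, c n < c (n + 1)
  xi : InjOn x (Iio (c p))
  yi : InjOn y (Iio (c p))
  xB : x '' Iio (c p) ⊆ B
  yC : y '' Iio (c p) ⊆ C
  blk : ∀ n < p, Blk M N B C x y (c n) (c (n + 1))

variable {x y : ℕ → α} {c : ℕ → ℕ} {p : ℕ}

theorem BS.mono (h : BS M N B C x y c p) {n n' : ℕ} (h1 : n ≤ n') (h2 : n' ≤ p) :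
    c n ≤ c n' := by
  induction n' with
  | zero =>
    have : n = 0 := by omega
    rw [this]
  | succ n' ih =>
    rcases Nat.eq_or_lt_of_le h1 with h3 | h3
    · rw [h3]
    · exact (ih (by omega) (by omega)).trans (h.cm n' (by omega)).le

theorem image_shift (x X : ℕ → α) (s : ℕ) {I : Set ℕ} (hI : ∀ i ∈ I, s ≤ i) :
    cat x X s '' I = X '' {j | s + j ∈ I} := by
  ext z
  constructor
  · rintro ⟨i, hi, rfl⟩
    have h1 := hI i hi
    refine ⟨i - s, ?_, ?_⟩
    · simp only [mem_ofPred_eq]
      rw [Nat.add_sub_cancel' h1]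
      exact hi
    · simp [cat, not_lt.2 h1]
  · rintro ⟨j, hj, rfl⟩
    exact ⟨s + j, hj, by simp [cat]⟩

/-- one more block -/
theorem BS.block (h : BS M N B C x y c p) {m : ℕ} {X Y : ℕ → α}
    (hm : 0 < m) (hX : InjOn X (Iio m)) (hY : InjOn Y (Iio m))
    (hXB : X '' Iio m ⊆ B \ x '' Iio (c p)) (hYC : Y '' Iio m ⊆ C \ y '' Iio (c p))
    (hblk : ∀ I J, I ⊆ Iio m → J ⊆ Iio m →
      (M.IsBase ((B \ (x '' Iio (c p) ∪ X '' I)) ∪ (y '' Iio (c p) ∪ Y '' J)) ↔ I = J) ∧
      (N.IsBase ((C \ (y '' Iio (c p) ∪ Y '' J)) ∪ (x '' Iio (c p) ∪ X '' I)) ↔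
        J = nxt 0 m '' I)) :
    BS M N B C (cat x X (c p)) (cat y Y (c p)) (fun n => if n ≤ p then c n else c p + m)
      (p + 1) := by
  have hp1 : ¬ (p + 1 ≤ p) := by omega
  have dX : Disjoint (x '' Iio (c p)) (X '' Iio m) := by
    rw [disjoint_right]
    intro z hz
    exact (hXB hz).2
  have dY : Disjoint (y '' Iio (c p)) (Y '' Iio m) := by
    rw [disjoint_right]
    intro z hz
    exact (hYC hz).2
  refine ⟨by simp [h.c0], ?_, ?_, ?_, ?_, ?_, ?_⟩
  · intro n hn
    rcases Nat.eq_or_lt_of_le (Nat.lt_succ_iff.1 hn) with h1 | h1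
    · subst h1
      simp only [le_refl, if_true, hp1, if_false]
      omega
    · have e1 : n ≤ p := by omega
      have e2 : n + 1 ≤ p := by omega
      simp only [e1, e2, if_true]
      exact h.cm n h1
  · simp only [hp1, if_false]
    exact cat_injOn h.xi hX dX
  · simp only [hp1, if_false]
    exact cat_injOn h.yi hY dY
  · simp only [hp1, if_false]
    rw [cat_image_add]
    exact union_subset h.xB (hXB.trans sdiff_subset)
  · simp only [hp1, if_false]
    rw [cat_image_add]
    exact union_subset h.yC (hYC.trans sdiff_subset)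
  · intro n hn
    rcases Nat.eq_or_lt_of_le (Nat.lt_succ_iff.1 hn) with h1 | h1
    · subst h1
      simp only [le_refl, if_true, hp1, if_false]
      intro I J hI hJ
      rw [cat_image_le x X (le_refl _), cat_image_le y Y (le_refl _),
        image_shift x X _ (fun i hi => (hI hi).1), image_shift y Y _ (fun i hi => (hJ hi).1)]
      have hI' : {j | c n + j ∈ I} ⊆ Iio m := by
        intro j hj
        have := (hI hj).2
        simp only [mem_Iio]
        omega
      have hJ' : {j | c n + j ∈ J} ⊆ Iio m := by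
        intro j hj
        have := (hJ hj).2
        simp only [mem_Iio]
        omega
      have hnx : ∀ i, nxt (c n) (c n + m) (c n + i) = c n + nxt 0 m i := by
        intro i
        unfold nxt
        by_cases h2 : i + 1 = m
        · rw [if_pos (by omega), if_pos h2]
          omega
        · rw [if_neg (by omega), if_neg h2]
          omega
      obtain ⟨h1, h2⟩ := hblk _ _ hI' hJ'
      constructor
      · rw [h1]
        constructor
        · intro h3
          ext i
          constructor
          · intro hi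
            have h4 := (hI hi).1
            have h5 : i - c n ∈ {j | c n + j ∈ I} := by
              simp only [mem_ofPred_eq]
              rw [Nat.add_sub_cancel' h4]
              exact hi
            rw [h3] at h5
            simp only [mem_ofPred_eq] at h5
            rwa [Nat.add_sub_cancel' h4] at h5
          · intro hi
            have h4 := (hJ hi).1
            have h5 : i - c n ∈ {j | c n + j ∈ J} := by
              simp only [mem_ofPred_eq]
              rw [Nat.add_sub_cancel' h4]
              exact hi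
            rw [← h3] at h5
            simp only [mem_ofPred_eq] at h5
            rwa [Nat.add_sub_cancel' h4] at h5
        · intro h3
          rw [h3]
      · rw [h2]
        constructor
        · intro h3
          ext i
          constructor
          · intro hi
            have h4 := (hJ hi).1
            have h5 : i - c n ∈ {j | c n + j ∈ J} := by
              simp only [mem_ofPred_eq]
              rw [Nat.add_sub_cancel' h4]
              exact hi
            rw [h3] at h5
            obtain ⟨l, hl, hl2⟩ := h5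
            refine ⟨c n + l, hl, ?_⟩
            rw [hnx, hl2, Nat.add_sub_cancel' h4]
          · rintro ⟨l, hl, rfl⟩
            have h4 := (hI hl).1
            obtain ⟨l', rfl⟩ : ∃ l', l = c n + l' := ⟨l - c n, by omega⟩
            have h5 : nxt 0 m l' ∈ {j | c n + j ∈ J} := by
              rw [h3]
              exact ⟨l', hl, rfl⟩
            rw [hnx]
            exact h5
        · intro h3
          ext i
          constructor
          · intro hi
            have hi' : c n + i ∈ J := hi
            rw [h3] at hi'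
            obtain ⟨l, hl, hl2⟩ := hi'
            have h4 := (hI hl).1
            obtain ⟨l', rfl⟩ : ∃ l', l = c n + l' := ⟨l - c n, by omega⟩
            rw [hnx] at hl2
            exact ⟨l', hl, by omega⟩
          · rintro ⟨l, hl, rfl⟩
            simp only [mem_ofPred_eq]
            rw [h3]
            exact ⟨c n + l, hl, hnx l⟩
    · have e1 : n ≤ p := by omega
      have e2 : n + 1 ≤ p := by omega
      simp only [e1, e2, if_true]
      have h5 : c (n + 1) ≤ c p := h.mono e2 (le_refl _)
      have h6 : c n ≤ c p := h.mono e1 (le_refl _)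
      intro I J hI hJ
      have h7 : ∀ (x X : ℕ → α) (I : Set ℕ), I ⊆ Ico (c n) (c (n + 1)) →
          cat x X (c p) '' I = x '' I := by
        intro x X I hI
        apply image_congr
        intro a ha
        have : a < c p := lt_of_lt_of_le (hI ha).2 h5
        simp [cat, this]
      rw [cat_image_le x X h6, cat_image_le y Y h6, h7 x X I hI, h7 y Y J hJ]
      exact h.blk n h1 I J hI hJ

theorem Exa.eq_of_left (hd : Disjoint B C) {S T T' : Set α} (h : Exa M N B C S T)
    (h' : Exa M N B C S T') (hT : T ⊆ T') : T = T' := by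
  have h1 := h.2.2.1.eq_of_subset_isBase h'.2.2.1 (union_subset_union_right _ hT)
  apply Subset.antisymm hT
  intro z hz
  have h2 : z ∈ (B \ S) ∪ T := by
    rw [h1]
    exact Or.inr hz
  rcases h2 with h2 | h2
  · exact absurd (h'.2.1 hz) (disjoint_left.1 hd h2.1)
  · exact h2

/-- from one exact pair to a larger one -/
theorem BS.to (hd : Disjoint B C) (hBf : B.Finite) (hCf : C.Finite) {S' T' : Set α}
    (h' : Exa M N B C S' T') : ∀ (d : ℕ) (x y : ℕ → α) (c : ℕ → ℕ) (p : ℕ),
    BS M N B C x y c p → Exa M N B C (x '' Iio (c p)) (y '' Iio (c p)) →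
    x '' Iio (c p) ⊆ S' → y '' Iio (c p) ⊆ T' → (S' \ x '' Iio (c p)).ncard ≤ d →
    ∃ (x' y' : ℕ → α) (c' : ℕ → ℕ) (p' : ℕ), p ≤ p' ∧ BS M N B C x' y' c' p' ∧
      (∀ n ≤ p, c' n = c n) ∧ (∀ j < c p, x' j = x j ∧ y' j = y j) ∧
      x' '' Iio (c' p') = S' ∧ y' '' Iio (c' p') = T' := by
  intro d
  induction d with
  | zero =>
    intro x y c p h hex hS hT hcard
    have h1 : S' \ x '' Iio (c p) = ∅ := by
      have hf : (S' \ x '' Iio (c p)).Finite := hBf.subset (sdiff_subset.trans h'.1)
      exact (ncard_eq_zero hf).1 (by omega)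
    have h2 : x '' Iio (c p) = S' := Subset.antisymm hS (sdiff_eq_empty.1 h1)
    refine ⟨x, y, c, p, le_refl _, h, fun _ _ => rfl, fun _ _ => ⟨rfl, rfl⟩, h2, ?_⟩
    rw [h2] at hex
    exact hex.eq_of_left hd h' hT
  | succ d ih =>
    intro x y c p h hex hS hT hcard
    by_cases h2 : x '' Iio (c p) = S'
    · refine ⟨x, y, c, p, le_refl _, h, fun _ _ => rfl, fun _ _ => ⟨rfl, rfl⟩, h2, ?_⟩
      rw [h2] at hex
      exact hex.eq_of_left hd h' hT
    · -- a smallest larger exact pair
      have hfin : ∀ {Z : Set α}, Z ⊆ S' → Z.Finite := fun hZ => hBf.subset (hZ.trans h'.1)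
      have hexi : ∃ n : ℕ, ∃ S₁ T₁ : Set α, Exa M N B C S₁ T₁ ∧ x '' Iio (c p) ⊆ S₁ ∧
          S₁ ⊆ S' ∧ y '' Iio (c p) ⊆ T₁ ∧ T₁ ⊆ T' ∧ x '' Iio (c p) ≠ S₁ ∧ S₁.ncard = n :=
        ⟨_, S', T', h', hS, subset_rfl, hT, subset_rfl, h2, rfl⟩
      classical
      obtain ⟨S₁, T₁, hE1, hS1, hS1', hT1, hT1', hne, hn⟩ := Nat.find_spec hexi
      obtain ⟨m, X, Y, hm, hX, hY, hXi, hYi, hblk⟩ := gap hd hBf hCf hex hE1 hS1 hT1 hne (by
        intro S₂ T₂ hE2 ha hb hc hd'
        by_cases h3 : x '' Iio (c p) = S₂
        · exact Or.inl h3.symm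
        · right
          have h4 := Nat.find_min' hexi ⟨S₂, T₂, hE2, ha, hb.trans hS1', hc, hd'.trans hT1', h3,
            rfl⟩
          rw [← hn] at h4
          exact eq_of_subset_of_ncard_le hb h4 (hfin hS1'))
      have hB1 := h.block hm hX hY (by
        rw [hXi]
        exact sdiff_subset_sdiff_left (hS1'.trans h'.1)) (by
        rw [hYi]
        exact sdiff_subset_sdiff_left (hT1'.trans h'.2.1)) hblk
      have hp1 : ¬ (p + 1 ≤ p) := by omega
      have i1 : cat x X (c p) '' Iio (c p + m) = S₁ := by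
        rw [cat_image_add, hXi]
        exact union_sdiff_cancel hS1
      have i2 : cat y Y (c p) '' Iio (c p + m) = T₁ := by
        rw [cat_image_add, hYi]
        exact union_sdiff_cancel hT1
      have hcd : (S' \ S₁).ncard ≤ d := by
        have h3 : S' \ S₁ ⊂ S' \ x '' Iio (c p) := by
          refine ssubset_of_subset_of_ne (sdiff_subset_sdiff_right hS1) ?_
          intro h4
          apply hne
          apply Subset.antisymm hS1
          intro z hz
          by_contra hz'
          have h5 : z ∈ S' \ x '' Iio (c p) := ⟨hS1' hz, hz'⟩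
          rw [← h4] at h5
          exact h5.2 hz
        have h4 := ncard_lt_ncard h3 (hfin sdiff_subset)
        omega
      obtain ⟨x', y', c', p', hp', hBS, hc', hxy', h3, h4⟩ := ih _ _ _ _ hB1
        (by simp only [hp1, if_false]; rw [i1, i2]; exact hE1)
        (by simp only [hp1, if_false]; rw [i1]; exact hS1')
        (by simp only [hp1, if_false]; rw [i2]; exact hT1')
        (by simp only [hp1, if_false]; rw [i1]; exact hcd)
      refine ⟨x', y', c', p', by omega, hBS, ?_, ?_, h3, h4⟩
      · intro n hn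
        rw [hc' n (by omega)]
        simp only [hn, if_true]
      · intro j hj
        have h5 := hxy' j (by simp only [hp1, if_false]; omega)
        rw [h5.1, h5.2]
        simp [cat, hj]

/-- the refinement of given orderings at their exact levels -/
theorem refine_to (hd : Disjoint B C) (hBf : B.Finite) (hCf : C.Finite)
    (h0 : Exa M N B C ∅ ∅) {x0 y0 : ℕ → α} {r : ℕ} (hx0 : InjOn x0 (Iio r)) :
    ∀ i ≤ r, ∃ (x y : ℕ → α) (c : ℕ → ℕ) (p : ℕ), BS M N B C x y c p ∧ c p ≤ i ∧
      Exa M N B C (x0 '' Iio (c p)) (y0 '' Iio (c p)) ∧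
      x '' Iio (c p) = x0 '' Iio (c p) ∧ y '' Iio (c p) = y0 '' Iio (c p) ∧
      ∀ j ≤ i, Exa M N B C (x0 '' Iio j) (y0 '' Iio j) →
        ∃ n ≤ p, c n = j ∧ x '' Iio j = x0 '' Iio j ∧ y '' Iio j = y0 '' Iio j := by
  have hz : ∀ x : ℕ → α, x '' Iio 0 = ∅ := by
    intro x
    simp
  intro i
  induction i with
  | zero =>
    intro _
    refine ⟨x0, y0, fun _ => 0, 0, ?_, le_refl _, by rw [hz, hz]; exact h0, rfl, rfl, ?_⟩
    · exact ⟨rfl, fun n hn => absurd hn (Nat.not_lt_zero n), by simp, by simp,
        by simp only [hz]; exact empty_subset _, by simp only [hz]; exact empty_subset _,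
        fun n hn => absurd hn (Nat.not_lt_zero n)⟩
    · intro j hj _
      exact ⟨0, le_refl _, (Nat.le_zero.1 hj).symm, rfl, rfl⟩
  | succ i ih =>
    intro hi
    obtain ⟨x, y, c, p, hBS, hcp, hE, hx, hy, hall⟩ := ih (by omega)
    by_cases hex : Exa M N B C (x0 '' Iio (i + 1)) (y0 '' Iio (i + 1))
    · obtain ⟨x', y', c', p', hp', hBS', hc', hxy', h3, h4⟩ := BS.to hd hBf hCf hex _ x y c p hBS
        (by rw [hx, hy]; exact hE) (by rw [hx]; exact image_mono (Iio_subset_Iio (by omega)))
        (by rw [hy]; exact image_mono (Iio_subset_Iio (by omega))) (le_refl _)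
      have hc1 : c' p' = i + 1 := by
        have h5 : (x' '' Iio (c' p')).encard = (x0 '' Iio (i + 1)).encard := by rw [h3]
        rw [hBS'.xi.encard_image, (hx0.mono (Iio_subset_Iio hi)).encard_image, encard_Iio,
          encard_Iio] at h5
        exact_mod_cast h5
      rw [hc1] at h3 h4
      refine ⟨x', y', c', p', hBS', by omega, by rw [hc1]; exact hex, by rw [hc1]; exact h3,
        by rw [hc1]; exact h4, ?_⟩
      intro j hj hEj
      rcases Nat.eq_or_lt_of_le hj with h5 | h5
      · exact ⟨p', le_refl _, by rw [hc1, h5], by rw [h5]; exact h3, by rw [h5]; exact h4⟩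
      · obtain ⟨n, hn, hcn, h6, h7⟩ := hall j (by omega) hEj
        have hjc : j ≤ c p := by
          rw [← hcn]
          exact hBS.mono hn (le_refl _)
        refine ⟨n, by omega, by rw [hc' n hn, hcn], ?_, ?_⟩
        · rw [← h6]
          apply image_congr
          intro a ha
          exact (hxy' a (lt_of_lt_of_le ha hjc)).1
        · rw [← h7]
          apply image_congr
          intro a ha
          exact (hxy' a (lt_of_lt_of_le ha hjc)).2
    · refine ⟨x, y, c, p, hBS, by omega, hE, hx, hy, ?_⟩
      intro j hj hEj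
      rcases Nat.eq_or_lt_of_le hj with h5 | h5
      · rw [h5] at hEj
        exact absurd hEj hex
      · exact hall j (by omega) hEj

end Pool.Agent.Lib.MP_2c7063_coTG
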