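import Pool.Agent.Lib.MP_2c7063_coTG.Main

/-! For one matroid no block is longer than half of the rank. -/

namespace Pool.Agent.Lib.MP_2c7063_coTG

open Set
open Pool.Agent.Lib.MP_2c7063_coD (encard_Iio)

variable {α : Type*} {M N : Matroid α} {B C : Set α} {x y : ℕ → α} {s e r : ℕ}

/-- the closure relation in a block, first matroid -/
theorem Blk.clo₁ (h : Blk M N B C x y s e) (hse : s < e) (hd : Disjoint B C)
    (hxB : x '' Iio e ⊆ B) (hyC : y '' Iio e ⊆ C)
    (hCE : C ⊆ M.E) {j : ℕ} (hj : j ∈ Ico s e) :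
    y j ∈ M.closure (((B \ x '' Iio e) ∪ y '' Iio s) ∪ {x j}) := by
  have hP : M.IsBase ((B \ x '' Iio s) ∪ y '' Iio s) := by
    have h1 := ((h ∅ ∅ (empty_subset _) (empty_subset _)).1).2 rfl
    simpa using h1
  have hyj : y j ∈ C := hyC ⟨j, hj.2, rfl⟩
  have h1 : y j ∈ M.closure (((B \ x '' Iio s) ∪ y '' Iio s) \ x '' (Ico s e \ {j})) := by
    apply clo hP (hCE hyj)
    rintro _ ⟨l, ⟨hl, hlj⟩, rfl⟩ hlP
    by_contra hc
    have h2 := hP.exchange_base_of_notMem_closure hlP hc (hCE hyj)
    have h3 : insert (y j) (((B \ x '' Iio s) ∪ y '' Iio s) \ {x l}) =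
        (B \ (x '' Iio s ∪ x '' {l})) ∪ (y '' Iio s ∪ y '' {j}) := by
      have hxl : x l ∉ y '' Iio s := by
        intro h4
        exact disjoint_left.1 hd (hxB ⟨l, hl.2, rfl⟩)
          (hyC (image_mono (Iio_subset_Iio hse.le) h4))
      ext z
      simp only [mem_insert_iff, mem_sdiff, mem_union, mem_singleton_iff, image_singleton]
      constructor
      · rintro (h4 | ⟨⟨h4, h5⟩ | h4, h6⟩)
        · exact Or.inr (Or.inr h4)
        · refine Or.inl ⟨h4, ?_⟩
          rintro (h7 | h7)
          · exact h5 h7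
          · exact h6 h7
        · exact Or.inr (Or.inl h4)
      · rintro (⟨h4, h5⟩ | h4 | h4)
        · exact Or.inr ⟨Or.inl ⟨h4, fun h6 => h5 (Or.inl h6)⟩, fun h6 => h5 (Or.inr h6)⟩
        · exact Or.inr ⟨Or.inr h4, fun h6 => hxl (by rw [← h6]; exact h4)⟩
        · exact Or.inl h4
    rw [h3] at h2
    have h4 := ((h {l} {j} (singleton_subset_iff.2 hl) (singleton_subset_iff.2 hj)).1).1 h2
    exact hlj (by rw [mem_singleton_iff]; exact singleton_injective h4)
  refine M.closure_subset_closure ?_ h1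
  rintro z ⟨h2 | h2, h3⟩
  · by_cases h4 : z ∈ x '' Iio e
    · obtain ⟨l, hl, rfl⟩ := h4
      simp only [mem_Iio] at hl
      right
      by_cases h5 : l < s
      · exact absurd ⟨l, h5, rfl⟩ h2.2
      · by_contra h6
        apply h3
        refine ⟨l, ⟨⟨by omega, hl⟩, ?_⟩, rfl⟩
        intro h7
        apply h6
        rw [mem_singleton_iff] at h7 ⊢
        rw [h7]
    · exact Or.inl (Or.inl ⟨h2.1, h4⟩)
  · exact Or.inl (Or.inr h2)

/-- the closure relation in a block, second matroid -/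
theorem Blk.clo₂ (h : Blk M N B C x y s e) (hse : s < e) (hd : Disjoint B C)
    (hxB : x '' Iio e ⊆ B) (hyC : y '' Iio e ⊆ C)
    (hBE : B ⊆ N.E) {j : ℕ} (hj : j ∈ Ico s e) :
    x j ∈ N.closure (((C \ y '' Iio e) ∪ x '' Iio s) ∪ {y (nxt s e j)}) := by
  have hP : N.IsBase ((C \ y '' Iio s) ∪ x '' Iio s) := by
    have h1 := ((h ∅ ∅ (empty_subset _) (empty_subset _)).2).2 (by simp)
    simpa using h1
  have hxj : x j ∈ B := hxB ⟨j, hj.2, rfl⟩
  have h1 : x j ∈ N.closure (((C \ y '' Iio s) ∪ x '' Iio s) \ y '' (Ico s e \ {nxt s e j})) := by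
    apply clo hP (hBE hxj)
    rintro _ ⟨l, ⟨hl, hlj⟩, rfl⟩ hlP
    by_contra hc
    have h2 := hP.exchange_base_of_notMem_closure hlP hc (hBE hxj)
    have h3 : insert (x j) (((C \ y '' Iio s) ∪ x '' Iio s) \ {y l}) =
        (C \ (y '' Iio s ∪ y '' {l})) ∪ (x '' Iio s ∪ x '' {j}) := by
      have hyl : y l ∉ x '' Iio s := by
        intro h4
        exact disjoint_left.1 hd (hxB (image_mono (Iio_subset_Iio hse.le) h4))
          (hyC ⟨l, hl.2, rfl⟩)
      ext z
      simp only [mem_insert_iff, mem_sdiff, mem_union, mem_singleton_iff, image_singleton]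
      constructor
      · rintro (h4 | ⟨⟨h4, h5⟩ | h4, h6⟩)
        · exact Or.inr (Or.inr h4)
        · refine Or.inl ⟨h4, ?_⟩
          rintro (h7 | h7)
          · exact h5 h7
          · exact h6 h7
        · exact Or.inr (Or.inl h4)
      · rintro (⟨h4, h5⟩ | h4 | h4)
        · exact Or.inr ⟨Or.inl ⟨h4, fun h6 => h5 (Or.inl h6)⟩, fun h6 => h5 (Or.inr h6)⟩
        · exact Or.inr ⟨Or.inr h4, fun h6 => hyl (by rw [← h6]; exact h4)⟩
        · exact Or.inl h4
    rw [h3] at h2
    have h4 := ((h {j} {l} (singleton_subset_iff.2 hj) (singleton_subset_iff.2 hl)).2).1 h2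
    rw [image_singleton] at h4
    exact hlj (by rw [mem_singleton_iff]; exact singleton_injective h4)
  refine N.closure_subset_closure ?_ h1
  rintro z ⟨h2 | h2, h3⟩
  · by_cases h4 : z ∈ y '' Iio e
    · obtain ⟨l, hl, rfl⟩ := h4
      simp only [mem_Iio] at hl
      right
      by_cases h5 : l < s
      · exact absurd ⟨l, h5, rfl⟩ h2.2
      · by_contra h6
        apply h3
        refine ⟨l, ⟨⟨by omega, hl⟩, ?_⟩, rfl⟩
        intro h7
        apply h6
        rw [mem_singleton_iff] at h7 ⊢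
        rw [h7]
    · exact Or.inl (Or.inl ⟨h2.1, h4⟩)
  · exact Or.inl (Or.inr h2)

theorem Blk.half (h : Blk M M B C x y s e) (hse : s < e) (hd : Disjoint B C)
    (hB : M.IsBase B) (hC : M.IsBase C) (hr : B.encard = r) (hr' : C.encard = r)
    (hx : InjOn x (Iio e)) (hy : InjOn y (Iio e)) (hxB : x '' Iio e ⊆ B)
    (hyC : y '' Iio e ⊆ C) : 2 * (e - s) ≤ r + 1 := by
  set P₁ := (B \ x '' Iio e) ∪ y '' Iio s with hP₁
  set P₂ := (C \ y '' Iio e) ∪ x '' Iio s with hP₂
  have hxsB : x '' Iio s ⊆ B := (image_mono (Iio_subset_Iio hse.le)).trans hxB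
  have hysC : y '' Iio s ⊆ C := (image_mono (Iio_subset_Iio hse.le)).trans hyC
  have hxE : ∀ j < e, x j ∈ M.E := fun j hj => hB.subset_ground (hxB ⟨j, hj, rfl⟩)
  have hyE : ∀ j < e, y j ∈ M.E := fun j hj => hC.subset_ground (hyC ⟨j, hj, rfl⟩)
  have hP1E : P₁ ⊆ M.E := by
    rintro z (hz | hz)
    · exact hB.subset_ground hz.1
    · exact hC.subset_ground (hysC hz)
  have hP2E : P₂ ⊆ M.E := by
    rintro z (hz | hz)
    · exact hC.subset_ground hz.1
    · exact hB.subset_ground (hxsB hz)
  set F := (P₁ ∪ P₂) ∪ {x s} with hF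
  have hFE : F ⊆ M.E :=
    union_subset (union_subset hP1E hP2E) (singleton_subset_iff.2 (hxE s hse))
  have k1 : ∀ j ∈ Ico s e, x j ∈ M.closure F → y j ∈ M.closure F := by
    intro j hj hxj
    have h1 := h.clo₁ hse hd hxB hyC hC.subset_ground hj
    refine M.closure_subset_closure_of_subset_closure ?_ h1
    rintro z (hz | hz)
    · exact M.mem_closure_of_mem (Or.inl (Or.inl hz)) hFE
    · rw [mem_singleton_iff.1 hz]
      exact hxj
  have k2 : ∀ j ∈ Ico s e, y (nxt s e j) ∈ M.closure F → x j ∈ M.closure F := by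
    intro j hj hyj
    have h1 := h.clo₂ hse hd hxB hyC hB.subset_ground hj
    refine M.closure_subset_closure_of_subset_closure ?_ h1
    rintro z (hz | hz)
    · exact M.mem_closure_of_mem (Or.inl (Or.inr hz)) hFE
    · rw [mem_singleton_iff.1 hz]
      exact hyj
  have k3 : x s ∈ M.closure F := M.mem_closure_of_mem (Or.inr rfl) hFE
  have k4 : ∀ t, t < e - s → x (e - 1 - t) ∈ M.closure F := by
    intro t
    induction t with
    | zero =>
      intro _
      have h1 := k2 (e - 1 - 0) ⟨by omega, by omega⟩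
      have h2 : nxt s e (e - 1 - 0) = s := by
        unfold nxt
        rw [if_pos (by omega)]
      rw [h2] at h1
      exact h1 (k1 s ⟨le_refl _, hse⟩ k3)
    | succ t ih =>
      intro ht
      have h1 := k2 (e - 1 - (t + 1)) ⟨by omega, by omega⟩
      have h2 : nxt s e (e - 1 - (t + 1)) = e - 1 - t := by
        unfold nxt
        rw [if_neg (by omega)]
        omega
      rw [h2] at h1
      exact h1 (k1 (e - 1 - t) ⟨by omega, by omega⟩ (ih (by omega)))
  have hBF : B ⊆ M.closure F := by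
    intro z hz
    by_cases h1 : z ∈ x '' Iio e
    · obtain ⟨j, hj, rfl⟩ := h1
      simp only [mem_Iio] at hj
      rcases Nat.lt_or_ge j s with h2 | h2
      · exact M.mem_closure_of_mem (Or.inl (Or.inr (Or.inr ⟨j, h2, rfl⟩))) hFE
      · have h3 := k4 (e - 1 - j) (by omega)
        have h4 : e - 1 - (e - 1 - j) = j := by omega
        rwa [h4] at h3
    · exact M.mem_closure_of_mem (Or.inl (Or.inl (Or.inl ⟨hz, h1⟩))) hFE
  have hrk : (r : ℕ∞) ≤ F.encard := by
    rw [← hr, ← hB.indep.eRk_eq_encard]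
    calc M.eRk B ≤ M.eRk (M.closure F) := M.eRk_mono hBF
      _ = M.eRk F := M.eRk_closure_eq F
      _ ≤ F.encard := M.eRk_le_encard F
  have cx : (x '' Iio e).encard = e := by rw [hx.encard_image, encard_Iio]
  have cy : (y '' Iio e).encard = e := by rw [hy.encard_image, encard_Iio]
  have cxs : (x '' Iio s).encard ≤ s := by
    rw [← encard_Iio s]
    exact encard_image_le _ _
  have cys : (y '' Iio s).encard ≤ s := by
    rw [← encard_Iio s]
    exact encard_image_le _ _
  have her : e ≤ r := by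
    have h1 : (x '' Iio e).encard ≤ B.encard := encard_le_encard hxB
    rw [cx, hr] at h1
    exact_mod_cast h1
  have cB : (B \ x '' Iio e).encard = ((r - e : ℕ) : ℕ∞) := by
    have h1 := encard_sdiff_add_encard_of_subset hxB
    rw [cx, hr] at h1
    have h2 : ((r : ℕ) : ℕ∞) = ((r - e : ℕ) : ℕ∞) + e := by
      rw [← Nat.cast_add, Nat.sub_add_cancel her]
    rw [h2] at h1
    exact (ENat.add_left_injective_of_ne_top (ENat.natCast_ne_top e)) h1
  have cC : (C \ y '' Iio e).encard = ((r - e : ℕ) : ℕ∞) := by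
    have h1 := encard_sdiff_add_encard_of_subset hyC
    rw [cy, hr'] at h1
    have h2 : ((r : ℕ) : ℕ∞) = ((r - e : ℕ) : ℕ∞) + e := by
      rw [← Nat.cast_add, Nat.sub_add_cancel her]
    rw [h2] at h1
    exact (ENat.add_left_injective_of_ne_top (ENat.natCast_ne_top e)) h1
  have hc : F.encard ≤ (((r - e + s) + (r - e + s) + 1 : ℕ) : ℕ∞) := by
    calc F.encard ≤ (P₁ ∪ P₂).encard + ({x s} : Set α).encard := encard_union_le _ _
      _ ≤ (P₁.encard + P₂.encard) + 1 := by
          gcongr
          · exact encard_union_le _ _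
          · rw [encard_singleton]
      _ ≤ ((((r - e : ℕ) : ℕ∞) + s) + (((r - e : ℕ) : ℕ∞) + s)) + 1 := by
          gcongr
          · calc P₁.encard ≤ (B \ x '' Iio e).encard + (y '' Iio s).encard :=
                  encard_union_le _ _
              _ ≤ ((r - e : ℕ) : ℕ∞) + s := by
                  rw [cB]
                  gcongr
          · calc P₂.encard ≤ (C \ y '' Iio e).encard + (x '' Iio s).encard :=
                  encard_union_le _ _
              _ ≤ ((r - e : ℕ) : ℕ∞) + s := by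
                  rw [cC]
                  gcongr
      _ = (((r - e + s) + (r - e + s) + 1 : ℕ) : ℕ∞) := by push_cast; ring
  have hfin : r ≤ (r - e + s) + (r - e + s) + 1 := by
    exact_mod_cast hrk.trans hc
  omega

end Pool.Agent.Lib.MP_2c7063_coTG
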