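import Mathlib

/-! Inversions of a permutation of `Fin m` and adjacent transpositions. -/

namespace Pool.Agent.Lib.MP_2c7063_coTG

open Finset

variable {m : ℕ}

/-- the inversions of `w` -/
def invs (w : Fin m → Fin m) : Finset (Fin m × Fin m) :=
  univ.filter fun p => p.1 < p.2 ∧ w p.2 < w p.1

/-- the transposition of `k` and `k + 1` -/
def sw (k : ℕ) (hk : k + 1 < m) : Equiv.Perm (Fin m) :=
  Equiv.swap ⟨k, Nat.lt_of_succ_lt hk⟩ ⟨k + 1, hk⟩

theorem sw_sw (k : ℕ) (hk : k + 1 < m) (j : Fin m) : sw k hk (sw k hk j) = j :=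
  Equiv.swap_apply_self _ _ _

theorem sw_left (k : ℕ) (hk : k + 1 < m) : sw k hk ⟨k, Nat.lt_of_succ_lt hk⟩ = ⟨k + 1, hk⟩ :=
  Equiv.swap_apply_left _ _

theorem sw_right (k : ℕ) (hk : k + 1 < m) : sw k hk ⟨k + 1, hk⟩ = ⟨k, Nat.lt_of_succ_lt hk⟩ :=
  Equiv.swap_apply_right _ _

theorem sw_ne (k : ℕ) (hk : k + 1 < m) {j : Fin m} (h1 : (j : ℕ) ≠ k) (h2 : (j : ℕ) ≠ k + 1) :
    sw k hk j = j := by
  apply Equiv.swap_apply_of_ne_of_ne
  · intro h
    exact h1 (by rw [h])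
  · intro h
    exact h2 (by rw [h])

/-- the three cases -/
theorem sw_cases (k : ℕ) (hk : k + 1 < m) (j : Fin m) :
    ((j : ℕ) = k ∧ (sw k hk j : ℕ) = k + 1) ∨ ((j : ℕ) = k + 1 ∧ (sw k hk j : ℕ) = k) ∨
      ((j : ℕ) ≠ k ∧ (j : ℕ) ≠ k + 1 ∧ sw k hk j = j) := by
  by_cases h1 : (j : ℕ) = k
  · left
    refine ⟨h1, ?_⟩
    have : j = ⟨k, Nat.lt_of_succ_lt hk⟩ := Fin.ext h1
    rw [this, sw_left]
  · by_cases h2 : (j : ℕ) = k + 1
    · right; left
      refine ⟨h2, ?_⟩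
      have : j = ⟨k + 1, hk⟩ := Fin.ext h2
      rw [this, sw_right]
    · right; right
      exact ⟨h1, h2, sw_ne k hk h1 h2⟩

theorem sw_lt (k : ℕ) (hk : k + 1 < m) (j : Fin m) {i : ℕ} (hi : i ≠ k + 1) :
    (sw k hk j : ℕ) < i ↔ (j : ℕ) < i := by
  rcases sw_cases k hk j with ⟨h1, h2⟩ | ⟨h1, h2⟩ | ⟨_, _, h3⟩
  · omega
  · omega
  · rw [h3]

/-- order of the images -/
theorem sw_mono (k : ℕ) (hk : k + 1 < m) {i j : Fin m} (h : i < j)
    (hne : ¬ ((i : ℕ) = k ∧ (j : ℕ) = k + 1)) : sw k hk i < sw k hk j := by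
  rw [Fin.lt_def] at h ⊢
  rcases sw_cases k hk i with ⟨h1, h2⟩ | ⟨h1, h2⟩ | ⟨h1, h1', h3⟩ <;>
    rcases sw_cases k hk j with ⟨g1, g2⟩ | ⟨g1, g2⟩ | ⟨g1, g1', g3⟩
  all_goals first | (rw [h3, g3]; omega) | (rw [h3]; omega) | (rw [g3]; omega) | omega

theorem invs_right (w : Fin m → Fin m) (k : ℕ) (hk : k + 1 < m)
    (h : w ⟨k + 1, hk⟩ < w ⟨k, Nat.lt_of_succ_lt hk⟩) :
    (invs (fun j => w (sw k hk j))).card < (invs w).card := by
  have h0 : ((⟨k, Nat.lt_of_succ_lt hk⟩, ⟨k + 1, hk⟩) : Fin m × Fin m) ∈ invs w := by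
    simp only [invs, mem_filter, mem_univ, true_and]
    exact ⟨by rw [Fin.lt_def]; simp, h⟩
  have h1 : (invs (fun j => w (sw k hk j))).card ≤ ((invs w).erase
      ((⟨k, Nat.lt_of_succ_lt hk⟩, ⟨k + 1, hk⟩) : Fin m × Fin m)).card := by
    refine card_le_card_of_injOn (fun p => (sw k hk p.1, sw k hk p.2)) ?_ ?_
    · rintro ⟨i, j⟩ hp
      simp only [invs, coe_filter, mem_univ, true_and, Set.mem_ofPred_eq] at hp
      obtain ⟨hij, hw⟩ := hp
      have hne : ¬ ((i : ℕ) = k ∧ (j : ℕ) = k + 1) := by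
        rintro ⟨hi, hj⟩
        have ei : sw k hk i = ⟨k + 1, hk⟩ := by
          rw [show i = ⟨k, Nat.lt_of_succ_lt hk⟩ from Fin.ext hi, sw_left]
        have ej : sw k hk j = ⟨k, Nat.lt_of_succ_lt hk⟩ := by
          rw [show j = ⟨k + 1, hk⟩ from Fin.ext hj, sw_right]
        rw [ei, ej] at hw
        exact absurd hw (not_lt.2 h.le)
      simp only [coe_erase, Set.mem_sdiff, mem_coe, invs, mem_filter, mem_univ, true_and,
        Set.mem_singleton_iff, Prod.mk.injEq, not_and]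
      refine ⟨⟨sw_mono k hk hij hne, hw⟩, fun e1 e2 => ?_⟩
      have e3 : i = ⟨k + 1, hk⟩ := by
        rw [← sw_sw k hk i, e1, sw_left]
      have e4 : j = ⟨k, Nat.lt_of_succ_lt hk⟩ := by
        rw [← sw_sw k hk j, e2, sw_right]
      rw [e3, e4, Fin.lt_def] at hij
      simp at hij
    · rintro ⟨i, j⟩ _ ⟨i', j'⟩ _ he
      simp only [Prod.mk.injEq, EmbeddingLike.apply_eq_iff_eq] at he
      rw [Prod.mk.injEq]
      exact he
  have h2 := card_erase_lt_of_mem h0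
  omega

theorem invs_left (w : Fin m → Fin m) (hw : Function.Injective w) (k : ℕ) (hk : k + 1 < m) :
    (invs (fun j => sw k hk (w j))).card ≤ (invs w).card + 1 := by
  have h1 : invs (fun j => sw k hk (w j)) ⊆ invs w ∪ univ.filter (fun p : Fin m × Fin m =>
      (w p.1 : ℕ) = k ∧ (w p.2 : ℕ) = k + 1) := by
    rintro ⟨i, j⟩ hp
    simp only [invs, mem_filter, mem_univ, true_and, mem_union] at hp ⊢
    obtain ⟨hij, h⟩ := hp
    by_cases h2 : w j < w i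
    · exact Or.inl ⟨hij, h2⟩
    · right
      have h3 : w i < w j := lt_of_le_of_ne (not_lt.1 h2) fun e => hij.ne (hw e)
      by_contra h4
      exact absurd (sw_mono k hk h3 h4) (not_lt.2 h.le)
  have h2 : (univ.filter (fun p : Fin m × Fin m =>
      (w p.1 : ℕ) = k ∧ (w p.2 : ℕ) = k + 1)).card ≤ 1 := by
    rw [card_le_one]
    rintro ⟨i, j⟩ hp ⟨i', j'⟩ hp'
    simp only [mem_filter, mem_univ, true_and] at hp hp'
    rw [Prod.mk.injEq]
    exact ⟨hw (Fin.ext (hp.1.trans hp'.1.symm)), hw (Fin.ext (hp.2.trans hp'.2.symm))⟩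
  have h3 := card_le_card h1
  have h4 := card_union_le (invs w) (univ.filter (fun p : Fin m × Fin m =>
      (w p.1 : ℕ) = k ∧ (w p.2 : ℕ) = k + 1))
  omega

end Pool.Agent.Lib.MP_2c7063_coTG
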