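import Pool.Agent.Lib.MP_2c7063_coTG.Glob

/-! Twisted cyclic orderings. -/

namespace Pool.Agent.Lib.MP_2c7063_coTG

open Set
open Pool.Agent.Lib.MP_2c7063_coD (cat cat_image_le cat_image_add cat_injOn encard_Iio)

variable {α : Type*} {M N : Matroid α} {B C : Set α} {x y : ℕ → α} {c : ℕ → ℕ} {p r : ℕ}

theorem BS.exists_block (h : BS M N B C x y c p) {i : ℕ} (hi : i < c p) :
    ∃ n < p, c n ≤ i ∧ i < c (n + 1) := by
  have key : ∀ q ≤ p, i < c q → ∃ n < q, c n ≤ i ∧ i < c (n + 1) := by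
    intro q
    induction q with
    | zero =>
      intro _ h1
      rw [h.c0] at h1
      exact absurd h1 (Nat.not_lt_zero i)
    | succ q ih =>
      intro hq h1
      rcases Nat.lt_or_ge i (c q) with h2 | h2
      · obtain ⟨n, hn, h3⟩ := ih (by omega) h2
        exact ⟨n, by omega, h3⟩
      · exact ⟨q, by omega, h2, h1⟩
  exact key p (le_refl _) hi

/-- `z` is `y` with all blocks rotated by one -/
def Tw (c : ℕ → ℕ) (p : ℕ) (y z : ℕ → α) : Prop :=
  ∀ n < p, ∀ i, c n ≤ i → i < c (n + 1) → z i = y (nxt (c n) (c (n + 1)) i)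

theorem BS.exists_tw (h : BS M N B C x y c p) : ∃ z : ℕ → α, Tw c p y z := by
  classical
  have hex : ∀ i, ∃ w : α, ∀ n < p, c n ≤ i → i < c (n + 1) →
      w = y (nxt (c n) (c (n + 1)) i) := by
    intro i
    by_cases hn : ∃ n, n < p ∧ c n ≤ i ∧ i < c (n + 1)
    · obtain ⟨n, hn, h1, h2⟩ := hn
      refine ⟨y (nxt (c n) (c (n + 1)) i), fun n' hn' h1' h2' => ?_⟩
      have e : n = n' := by
        rcases Nat.lt_trichotomy n n' with h3 | h3 | h3
        · have := h.mono (show n + 1 ≤ n' by omega) (by omega)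
          omega
        · exact h3
        · have := h.mono (show n' + 1 ≤ n by omega) (by omega)
          omega
      rw [e]
    · exact ⟨y 0, fun n h1 h2 h3 => absurd ⟨n, h1, h2, h3⟩ hn⟩
  choose z hz using hex
  exact ⟨z, fun n hn i h1 h2 => hz i n hn h1 h2⟩

theorem nxt_image {s e : ℕ} : nxt s e '' Ico s e = Ico s e := by
  ext j
  constructor
  · rintro ⟨i, hi, rfl⟩
    exact nxt_mem hi.1 hi.2
  · rintro ⟨h1, h2⟩
    obtain ⟨i, h3, h4, h5⟩ := nxt_surj h1 h2
    exact ⟨i, ⟨h3, h4⟩, h5⟩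

theorem Iio_union_Ico {s i : ℕ} (h : s ≤ i) : Iio i = Iio s ∪ Ico s i := by
  ext j
  simp only [mem_Iio, mem_union, mem_Ico]
  omega

theorem Tw.image_block {z : ℕ → α} (hz : Tw c p y z) {n : ℕ} (hn : n < p) {i : ℕ}
    (h2 : i ≤ c (n + 1)) :
    z '' Ico (c n) i = y '' (nxt (c n) (c (n + 1)) '' Ico (c n) i) := by
  rw [← image_comp]
  apply image_congr
  intro j hj
  exact hz n hn j hj.1 (lt_of_lt_of_le hj.2 h2)

theorem Tw.image_c (h : BS M N B C x y c p) {z : ℕ → α} (hz : Tw c p y z) :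
    ∀ n ≤ p, z '' Iio (c n) = y '' Iio (c n) := by
  intro n
  induction n with
  | zero =>
    intro _
    rw [h.c0]
    simp
  | succ n ih =>
    intro hn
    have h1 := (h.cm n hn).le
    rw [Iio_union_Ico h1, image_union, image_union, ih (by omega),
      hz.image_block hn (le_refl _), nxt_image]

theorem BS.windows (h : BS M N B C x y c p) {z : ℕ → α} (hz : Tw c p y z) {i : ℕ}
    (hi : i < c p) : M.IsBase ((B \ x '' Iio i) ∪ y '' Iio i) ∧
      N.IsBase ((C \ z '' Iio i) ∪ x '' Iio i) := by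
  obtain ⟨n, hn, h1, h2⟩ := h.exists_block hi
  have hI : Ico (c n) i ⊆ Ico (c n) (c (n + 1)) := Ico_subset_Ico_right h2.le
  have hJ : nxt (c n) (c (n + 1)) '' Ico (c n) i ⊆ Ico (c n) (c (n + 1)) :=
    (image_mono (Ico_subset_Ico_right h2.le)).trans nxt_image.subset
  constructor
  · have h3 := ((h.blk n hn _ _ hI hI).1).2 rfl
    rw [← image_union, ← image_union, ← Iio_union_Ico h1] at h3
    exact h3
  · have h3 := ((h.blk n hn _ _ hI hJ).2).2 rfl
    rw [← hz.image_block hn h2.le, ← Tw.image_c h hz n hn.le, ← image_union, ← image_union,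
      ← Iio_union_Ico h1] at h3
    exact h3

theorem enum {Z : Set α} {n : ℕ} (hZ : Z.encard = n) (a0 : α) :
    ∃ X : ℕ → α, InjOn X (Iio n) ∧ X '' Iio n = Z := by
  classical
  have hf : Z.Finite := by
    rw [← encard_lt_top_iff, hZ]
    exact ENat.natCast_lt_top n
  obtain ⟨F, rfl⟩ := hf.exists_finset_coe
  have hc : F.card = n := by
    rw [encard_coe_eq_coe_finsetCard] at hZ
    exact_mod_cast hZ
  have e := F.equivFinOfCardEq hc
  refine ⟨fun j => if h : j < n then (e.symm ⟨j, h⟩ : α) else a0, ?_, ?_⟩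
  · intro i hi j hj hij
    simp only [mem_Iio] at hi hj
    simp only [hi, hj, dif_pos] at hij
    have h1 := e.symm.injective (Subtype.ext hij)
    simpa using h1
  · ext w
    constructor
    · rintro ⟨j, hj, rfl⟩
      simp only [mem_Iio] at hj
      simp only [hj, dif_pos]
      exact (e.symm ⟨j, hj⟩).2
    · intro hw
      refine ⟨e ⟨w, hw⟩, (e ⟨w, hw⟩).2, ?_⟩
      simp

theorem extend_enum {k : ℕ} {a : ℕ → α} (ha : InjOn a (Iio k)) (haB : a '' Iio k ⊆ B)
    (hr : B.encard = r) : ∃ x : ℕ → α, InjOn x (Iio r) ∧ x '' Iio r = B ∧ ∀ j < k, x j = a j := by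
  have h1 := encard_sdiff_add_encard_of_subset haB
  rw [ha.encard_image, encard_Iio, hr] at h1
  have hkr : k ≤ r := by
    have h2 : (k : ℕ∞) ≤ r := by
      rw [← h1]
      exact le_add_self
    exact_mod_cast h2
  have h2 : (B \ a '' Iio k).encard = ((r - k : ℕ) : ℕ∞) := by
    have h3 : ((r : ℕ) : ℕ∞) = ((r - k : ℕ) : ℕ∞) + k := by
      rw [← Nat.cast_add, Nat.sub_add_cancel hkr]
    rw [h3] at h1
    exact (ENat.add_left_injective_of_ne_top (ENat.natCast_ne_top k)) h1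
  obtain ⟨X, hX, hXi⟩ := enum h2 (a 0)
  have h4 : k + (r - k) = r := by omega
  refine ⟨cat a X k, ?_, ?_, fun j hj => by simp [cat, hj]⟩
  · rw [← h4]
    apply cat_injOn ha hX
    rw [hXi]
    exact disjoint_sdiff_right
  · rw [← h4, cat_image_add, hXi]
    exact union_sdiff_cancel haB

theorem main (hMB : M.IsBase B) (hMC : M.IsBase C) (hNB : N.IsBase B) (hNC : N.IsBase C)
    (hd : Disjoint B C) (hr : B.encard = r)
    (k : ℕ) (a b : ℕ → α) (ha : InjOn a (Iio k)) (hb : InjOn b (Iio k)) (haB : a '' Iio k ⊆ B)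
    (hbC : b '' Iio k ⊆ C)
    (hab : ∀ i ≤ k, M.IsBase ((B \ a '' Iio i) ∪ b '' Iio i) ∧
      N.IsBase ((C \ b '' Iio i) ∪ a '' Iio i)) :
    ∃ (x y z : ℕ → α) (c : ℕ → ℕ) (p : ℕ), InjOn x (Iio r) ∧ InjOn y (Iio r) ∧
      x '' Iio r = B ∧ y '' Iio r = C ∧
      c 0 = 0 ∧ c p = r ∧ (∀ n < p, c n < c (n + 1)) ∧ Tw c p y z ∧
      (∀ i ≤ r, M.IsBase ((B \ x '' Iio i) ∪ y '' Iio i) ∧
        N.IsBase ((C \ z '' Iio i) ∪ x '' Iio i)) ∧
      (∀ n < p, Blk M N B C x y (c n) (c (n + 1))) ∧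
      (∀ j < k, c (j + 1) = j + 1 ∧ x j = a j ∧ y j = b j) ∧
      (M = N → r ≤ 12 * (Nat.log 2 r + 1) ^ 2 * (p + 1)) := by
  have hr' : C.encard = r := by rw [← hMB.encard_eq_encard_of_isBase hMC, hr]
  have hBf : B.Finite := by
    rw [← encard_lt_top_iff, hr]
    exact ENat.natCast_lt_top r
  have hCf : C.Finite := by
    rw [← encard_lt_top_iff, hr']
    exact ENat.natCast_lt_top r
  have hkr : k ≤ r := by
    have h1 : (a '' Iio k).encard ≤ B.encard := encard_le_encard haB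
    rw [ha.encard_image, encard_Iio, hr] at h1
    exact_mod_cast h1
  obtain ⟨x0, y0, hx0, hy0, hx0B, hy0C, hxy0, hcount⟩ : ∃ x0 y0 : ℕ → α, InjOn x0 (Iio r) ∧
      InjOn y0 (Iio r) ∧ x0 '' Iio r = B ∧ y0 '' Iio r = C ∧
      (∀ j < k, x0 j = a j ∧ y0 j = b j) ∧
      (M = N → r ≤ 12 * (Nat.log 2 r + 1) ^ 2 *
        {i ∈ Iic r | Exa M N B C (x0 '' Iio i) (y0 '' Iio i)}.ncard) := by
    by_cases hMN : M = N
    · subst hMN
      obtain ⟨x, y, h1, h2, h3, h4, h5, h6, h7⟩ :=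
        Pool.Agent.Lib.MP_2c7063_coD.main hMB hMC hd hr k a b ha hb haB hbC hab
      refine ⟨x, y, h1, h2, h3, h4, h5, fun _ => h7.trans (Nat.mul_le_mul_left _ ?_)⟩
      apply ncard_le_ncard _ ((finite_Iic r).subset (fun i hi => hi.1))
      rintro i ⟨hi1, hi2⟩
      refine ⟨hi1, ?_, ?_, (h6 i hi1).1, hi2⟩
      · rw [← h3]
        exact image_mono (Iio_subset_Iio hi1)
      · rw [← h4]
        exact image_mono (Iio_subset_Iio hi1)
    · obtain ⟨x, h1, h2, h3⟩ := extend_enum ha haB hr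
      obtain ⟨y, h4, h5, h6⟩ := extend_enum hb hbC hr'
      exact ⟨x, y, h1, h4, h2, h5, fun j hj => ⟨h3 j hj, h6 j hj⟩, fun h => absurd h hMN⟩
  have h00 : Exa M N B C ∅ ∅ :=
    ⟨empty_subset _, empty_subset _, by simpa using hMB, by simpa using hNC⟩
  obtain ⟨x, y, c, p, hBS, hcp, hE, hx, hy, hall⟩ := refine_to hd hBf hCf h00 hx0 (y0 := y0)
    r (le_refl r)
  have hlast : Exa M N B C (x0 '' Iio r) (y0 '' Iio r) := by
    rw [hx0B, hy0C]
    exact ⟨subset_rfl, subset_rfl, by simpa using hMC, by simpa using hNB⟩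
  obtain ⟨nr, hnr, hcr, hxr, hyr⟩ := hall r (le_refl r) hlast
  have hcpr : c p = r := by
    have := hBS.mono hnr (le_refl _)
    omega
  have hxi := hBS.xi
  have hyi := hBS.yi
  rw [hcpr] at hxi hyi
  obtain ⟨z, hz⟩ := hBS.exists_tw
  -- the start
  have him : ∀ j ≤ k, x0 '' Iio j = a '' Iio j ∧ y0 '' Iio j = b '' Iio j := by
    intro j hj
    constructor
    · apply image_congr
      intro i hi
      exact (hxy0 i (lt_of_lt_of_le hi hj)).1
    · apply image_congr
      intro i hi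
      exact (hxy0 i (lt_of_lt_of_le hi hj)).2
  have hst : ∀ j ≤ k, ∃ n ≤ p, c n = j ∧ x '' Iio j = a '' Iio j ∧ y '' Iio j = b '' Iio j := by
    intro j hj
    obtain ⟨h1, h2⟩ := him j hj
    have h3 := hall j (by omega) (by
      rw [h1, h2]
      refine ⟨?_, ?_, (hab j hj).1, (hab j hj).2⟩
      · exact (image_mono (Iio_subset_Iio hj)).trans haB
      · exact (image_mono (Iio_subset_Iio hj)).trans hbC)
    rw [h1, h2] at h3
    exact h3
  have hcj : ∀ j ≤ k, j ≤ p ∧ c j = j := by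
    intro j
    induction j with
    | zero => exact fun _ => ⟨Nat.zero_le _, hBS.c0⟩
    | succ j ih =>
      intro hj
      obtain ⟨h1, h2⟩ := ih (by omega)
      obtain ⟨n, hn, hcn, _⟩ := hst (j + 1) hj
      have h3 : j < n := by
        by_contra h4
        have h5 := hBS.mono (show n ≤ j by omega) h1
        omega
      have h4 := hBS.cm j (by omega)
      have h5 := hBS.mono (show j + 1 ≤ n by omega) hn
      exact ⟨by omega, by omega⟩
  have hsame : ∀ (u v : ℕ → α), InjOn u (Iio r) → (∀ j ≤ k, u '' Iio j = v '' Iio j) →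
      ∀ j < k, u j = v j := by
    intro u v hu huv j hj
    have h1 : u j ∈ v '' Iio (j + 1) := by
      rw [← huv (j + 1) hj]
      exact ⟨j, by simp, rfl⟩
    obtain ⟨t, ht, h2⟩ := h1
    rcases Nat.eq_or_lt_of_le (Nat.lt_succ_iff.1 ht) with h3 | h3
    · rw [← h2, h3]
    · exfalso
      have h4 : u j ∈ u '' Iio j := by
        rw [huv j hj.le, ← h2]
        exact ⟨t, h3, rfl⟩
      obtain ⟨t', ht', h5⟩ := h4
      simp only [mem_Iio] at ht'
      have h6 := hu (show t' ∈ Iio r by simp only [mem_Iio]; omega)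
        (show j ∈ Iio r by simp only [mem_Iio]; omega) h5
      omega
  refine ⟨x, y, z, c, p, hxi, hyi, by rw [hxr, hx0B], by rw [hyr, hy0C], hBS.c0, hcpr, hBS.cm,
    hz, ?_, hBS.blk, ?_, ?_⟩
  · intro i hi
    rcases Nat.eq_or_lt_of_le hi with h1 | h1
    · have h2 := Tw.image_c hBS hz p (le_refl _)
      rw [hcpr] at h2
      rw [h1, h2, hxr, hyr]
      exact ⟨hlast.2.2.1, hlast.2.2.2⟩
    · exact hBS.windows hz (by omega)
  · intro j hj
    refine ⟨(hcj (j + 1) hj).2, ?_, ?_⟩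
    · exact hsame x a hxi (fun j hj => by
        obtain ⟨_, _, _, h1, _⟩ := hst j hj
        exact h1) j hj
    · exact hsame y b hyi (fun j hj => by
        obtain ⟨_, _, _, _, h1⟩ := hst j hj
        exact h1) j hj
  · intro hMN
    refine (hcount hMN).trans (Nat.mul_le_mul_left _ ?_)
    have h1 : {i ∈ Iic r | Exa M N B C (x0 '' Iio i) (y0 '' Iio i)} ⊆ c '' Iic p := by
      rintro i ⟨hi1, hi2⟩
      obtain ⟨n, hn, hcn, _⟩ := hall i hi1 hi2
      exact ⟨n, hn, hcn⟩
    refine (ncard_le_ncard h1 ((finite_Iic p).image c)).trans ?_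
    refine (ncard_image_le (finite_Iic p)).trans ?_
    rw [← Finset.coe_Iic, ncard_coe_finset, Nat.card_Iic]

end Pool.Agent.Lib.MP_2c7063_coTG
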