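import Pool.Agent.Lib.MP_2c7063_coTG.Rot

/-! The exchange systems of a matroid. -/

namespace Pool.Agent.Lib.MP_2c7063_coTG

open Set

section

variable {α : Type*} {M : Matroid α}

theorem clo {P A : Set α} {t : α} (hP : M.IsBase P) (ht : t ∈ M.E)
    (h : ∀ a ∈ A, a ∈ P → t ∈ M.closure (P \ {a})) : t ∈ M.closure (P \ A) := by
  by_cases hA : (A ∩ P).Nonempty
  · have h1 : P \ A = ⋂ a ∈ A ∩ P, (P \ {a}) := by
      ext x
      simp only [mem_iInter, mem_inter_iff, mem_sdiff, mem_singleton_iff]
      constructor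
      · rintro ⟨h1, h2⟩ a ⟨ha, _⟩
        exact ⟨h1, fun h3 => h2 (by rw [h3]; exact ha)⟩
      · intro hx
        obtain ⟨a0, ha0⟩ := hA
        exact ⟨(hx a0 ha0).1, fun h3 => (hx x ⟨h3, (hx a0 ha0).1⟩).2 rfl⟩
    rw [h1, Matroid.closure_biInter_eq_biInter_closure_of_biUnion_indep (I := fun a => P \ {a})
      hA (hP.indep.subset (iUnion₂_subset fun a _ => sdiff_subset))]
    simp only [mem_iInter]
    rintro a ⟨ha, haP⟩
    exact h a ha haP
  · have h1 : P \ A = P := by
      ext x
      simp only [mem_sdiff, and_iff_left_iff_imp]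
      intro hx hxA
      exact hA ⟨x, hxA, hx⟩
    rw [h1, hP.closure_eq]
    exact ht

theorem rev_exchange {P Q : Set α} {a : α} (hP : M.IsBase P) (hQ : M.IsBase Q)
    (ha : a ∈ Q \ P) : ∃ b ∈ P \ Q, M.IsBase (insert a (P \ {b})) := by
  have haE : a ∈ M.E := hQ.subset_ground ha.1
  by_contra hcon
  push Not at hcon
  have h1 : a ∈ M.closure (P \ (P \ Q)) := by
    apply clo hP haE
    intro b hb _
    by_contra hc
    exact hcon b hb (hP.exchange_base_of_notMem_closure hb.1 hc haE)
  have h2 : P \ (P \ Q) ⊆ Q \ {a} := by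
    rintro z ⟨hz1, hz2⟩
    have hzQ : z ∈ Q := by
      by_contra h
      exact hz2 ⟨hz1, h⟩
    exact ⟨hzQ, fun h => ha.2 (by rw [← mem_singleton_iff.1 h]; exact hz1)⟩
  exact hQ.indep.notMem_closure_sdiff_of_mem ha.1 (M.closure_subset_closure h2 h1)

theorem sq {D : Set α} {p p' q q' : α} (hp' : p' ∉ D) (hpp : p ≠ p')
    (h1 : M.IsBase (insert p (insert p' D))) (h2 : M.IsBase (insert q (insert q' D))) :
    M.IsBase (insert q (insert p D)) ∨ M.IsBase (insert q' (insert p D)) := by
  have hsub : insert p D ⊆ insert p (insert p' D) := insert_subset_insert (subset_insert _ _)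
  have hI : M.Indep (insert p D) := h1.indep.subset hsub
  have hnb : ¬ M.IsBase (insert p D) := by
    intro h
    have h3 := h.eq_of_subset_isBase h1 hsub
    have h4 : p' ∈ insert p D := by
      rw [h3]
      exact mem_insert_of_mem _ (mem_insert _ _)
    rcases h4 with h4 | h4
    · exact hpp h4.symm
    · exact hp' h4
  obtain ⟨e, ⟨he1, he2⟩, heI⟩ := hI.exists_insert_of_not_isBase hnb h2
  have hb : M.IsBase (insert e (insert p D)) := by
    by_cases hep : e = p'
    · rw [hep, insert_comm]
      exact h1
    · have hset : (insert p (insert p' D)) \ {p'} = insert p D := by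
        ext z
        simp only [mem_sdiff, mem_insert_iff, mem_singleton_iff]
        constructor
        · rintro ⟨h3 | h3 | h3, h4⟩
          · exact Or.inl h3
          · exact absurd h3 h4
          · exact Or.inr h3
        · rintro (h3 | h3)
          · exact ⟨Or.inl h3, by rw [h3]; exact hpp⟩
          · exact ⟨Or.inr (Or.inr h3), fun h4 => hp' (h4 ▸ h3)⟩
      have hf : e ∉ insert p (insert p' D) := by
        rintro (h3 | h3 | h3)
        · exact he2 (Or.inl h3)
        · exact hep h3
        · exact he2 (Or.inr h3)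
      have h5 := h1.exchange_isBase_of_indep (e := p') hf (by rw [hset]; exact heI)
      rwa [hset] at h5
  rcases he1 with rfl | rfl | h3
  · exact Or.inl hb
  · exact Or.inr hb
  · exact absurd (Or.inr h3) he2

theorem par {D : Set α} {a b b' : α} (haD : a ∉ D) (hb'D : b' ∉ D) (hab : a ≠ b)
    (hab' : a ≠ b') (hbb' : b ≠ b') (hbD : b ∉ D)
    (h1 : M.IsBase (insert a (insert b' D))) (h2 : M.Indep (insert b D))
    (h3 : ¬ M.IsBase (insert a (insert b D))) : M.IsBase (insert b (insert b' D)) := by
  have haE : a ∈ M.E := h1.subset_ground (mem_insert _ _)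
  have hbE : b ∈ M.E := h2.subset_ground (mem_insert _ _)
  have hanot : a ∉ insert b D := by
    rintro (h | h)
    · exact hab h
    · exact haD h
  have hbnot : b ∉ insert a (insert b' D) := by
    rintro (h | h | h)
    · exact hab h.symm
    · exact hbb' h
    · exact hbD h
  have e1 : (insert a (insert b' D)) \ {b'} = insert a D := by
    ext z
    simp only [mem_sdiff, mem_insert_iff, mem_singleton_iff]
    constructor
    · rintro ⟨h3 | h3 | h3, h4⟩
      · exact Or.inl h3
      · exact absurd h3 h4
      · exact Or.inr h3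
    · rintro (h3 | h3)
      · exact ⟨Or.inl h3, by rw [h3]; exact hab'⟩
      · exact ⟨Or.inr (Or.inr h3), fun h4 => hb'D (h4 ▸ h3)⟩
  have e2 : (insert a (insert b' D)) \ {a} = insert b' D := by
    ext z
    simp only [mem_sdiff, mem_insert_iff, mem_singleton_iff]
    constructor
    · rintro ⟨h3 | h3 | h3, h4⟩
      · exact absurd h3 h4
      · exact Or.inl h3
      · exact Or.inr h3
    · rintro (h3 | h3)
      · exact ⟨Or.inr (Or.inl h3), by rw [h3]; exact hab'.symm⟩
      · exact ⟨Or.inr (Or.inr h3), fun h4 => haD (h4 ▸ h3)⟩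
  have hacl : a ∈ M.closure (insert b D) := by
    by_contra hc
    have h4 := (h2.notMem_closure_iff haE).1 hc
    apply h3
    have h5 := h1.exchange_isBase_of_indep (e := b') hbnot (by
      rw [e1, insert_comm]
      exact h4.1)
    rw [e1, insert_comm] at h5
    exact h5
  have hI' : M.Indep (insert b' D) := h1.indep.subset (subset_insert _ _)
  have hbcl : b ∉ M.closure (insert b' D) := by
    intro hc
    have h4 : insert b D ⊆ M.closure (insert b' D) := by
      rintro z (rfl | hz)
      · exact hc
      · exact M.mem_closure_of_mem (Or.inr hz) hI'.subset_ground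
    have h5 := M.closure_subset_closure_of_subset_closure h4 hacl
    have h6 : a ∉ insert b' D := by
      rintro (h | h)
      · exact hab' h
      · exact haD h
    exact (hI'.notMem_closure_iff haE).2 ⟨h1.indep, h6⟩ h5
  have h7 := (hI'.notMem_closure_iff hbE).1 hbcl
  have h8 := h1.exchange_isBase_of_indep (e := a) hbnot (by rw [e2]; exact h7.1)
  rwa [e2] at h8

end

variable {α ρ κ : Type*} [Fintype ρ] [Fintype κ] [DecidableEq ρ] [DecidableEq κ] {M : Matroid α}

/-- the window of a cell -/
def win (K : Set α) (f : ρ → α) (g : κ → α) (I : Finset ρ) (J : Finset κ) : Set α :=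
  K ∪ f '' {r | r ∉ I} ∪ g '' {k | k ∈ J}

/-- the frame -/
structure Frm (K : Set α) (f : ρ → α) (g : κ → α) : Prop where
  fi : Function.Injective f
  gi : Function.Injective g
  fg : ∀ a b, f a ≠ g b
  fK : ∀ a, f a ∉ K
  gK : ∀ b, g b ∉ K

variable {K : Set α} {f : ρ → α} {g : κ → α}

omit [Fintype ρ] [Fintype κ] [DecidableEq ρ] [DecidableEq κ] in
theorem Frm.flip (h : Frm K f g) : Frm K g f :=
  ⟨h.gi, h.fi, fun a b => (h.fg b a).symm, h.gK, h.fK⟩

omit [Fintype ρ] [Fintype κ] [DecidableEq κ] in
theorem win_row {I : Finset ρ} {J : Finset κ} {a : ρ} (ha : a ∉ I) :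
    win K f g I J = insert (f a) (win K f g (insert a I) J) := by
  ext z
  simp only [win, mem_union, mem_image, mem_ofPred_eq, mem_insert_iff, Finset.mem_insert]
  constructor
  · rintro ((h | ⟨r, hr, rfl⟩) | h)
    · exact Or.inr (Or.inl (Or.inl h))
    · by_cases hra : r = a
      · exact Or.inl (by rw [hra])
      · exact Or.inr (Or.inl (Or.inr ⟨r, by simp [hra, hr], rfl⟩))
    · exact Or.inr (Or.inr h)
  · rintro (rfl | ((h | ⟨r, hr, rfl⟩) | h))
    · exact Or.inl (Or.inr ⟨a, ha, rfl⟩)
    · exact Or.inl (Or.inl h)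
    · exact Or.inl (Or.inr ⟨r, fun h => hr (Or.inr h), rfl⟩)
    · exact Or.inr h

omit [Fintype ρ] [Fintype κ] [DecidableEq ρ] in
theorem win_col {I : Finset ρ} {J : Finset κ} {b : κ} :
    win K f g I (insert b J) = insert (g b) (win K f g I J) := by
  ext z
  simp only [win, mem_union, mem_image, mem_ofPred_eq, mem_insert_iff, Finset.mem_insert]
  constructor
  · rintro (h | ⟨r, rfl | hr, rfl⟩)
    · exact Or.inr (Or.inl h)
    · exact Or.inl rfl
    · exact Or.inr (Or.inr ⟨r, hr, rfl⟩)
  · rintro (rfl | (h | ⟨r, hr, rfl⟩))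
    · exact Or.inr ⟨b, Or.inl rfl, rfl⟩
    · exact Or.inl h
    · exact Or.inr ⟨r, Or.inr hr, rfl⟩

omit [Fintype ρ] [Fintype κ] [DecidableEq ρ] [DecidableEq κ] in
theorem Frm.row_notMem (h : Frm K f g) {I : Finset ρ} {J : Finset κ} {a : ρ} (ha : a ∈ I) :
    f a ∉ win K f g I J := by
  rintro ((h1 | ⟨r, hr, h1⟩) | ⟨k, _, h1⟩)
  · exact h.fK a h1
  · exact hr (by rw [h.fi h1]; exact ha)
  · exact h.fg a k h1.symm

omit [Fintype ρ] [Fintype κ] [DecidableEq ρ] [DecidableEq κ] in
theorem Frm.col_notMem (h : Frm K f g) {I : Finset ρ} {J : Finset κ} {b : κ} (hb : b ∉ J) :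
    g b ∉ win K f g I J := by
  rintro ((h1 | ⟨r, hr, h1⟩) | ⟨k, hk, h1⟩)
  · exact h.gK b h1
  · exact h.fg r b h1
  · exact hb (by rw [← h.gi h1]; exact hk)

/-- rows are removed, columns are added -/
theorem sysA (h : Frm K f g) (h0 : M.IsBase (win K f g ∅ ∅))
    (h1 : M.IsBase (win K f g Finset.univ Finset.univ)) :
    Sys (fun I J => M.IsBase (win K f g I J)) where
  bot := h0
  top := h1
  ext := by
    intro I J hL _ a ha
    have e1 : f a ∈ win K f g I J \ win K f g Finset.univ Finset.univ :=
      ⟨by rw [win_row ha]; exact mem_insert _ _, h.row_notMem (Finset.mem_univ a)⟩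
    obtain ⟨e, ⟨he1, he2⟩, hb⟩ := hL.exchange h1 e1
    rcases he1 with (he1 | ⟨r, hr, _⟩) | ⟨b, _, rfl⟩
    · exact absurd (Or.inl (Or.inl he1)) he2
    · exact absurd (Finset.mem_univ r) hr
    · have hbJ : b ∉ J := fun hbJ => he2 (Or.inr ⟨b, hbJ, rfl⟩)
      refine ⟨b, hbJ, ?_⟩
      have e2 : win K f g I J \ {f a} = win K f g (insert a I) J := by
        rw [win_row ha, insert_sdiff_of_mem _ (mem_singleton _), sdiff_singleton_eq_self]
        exact h.row_notMem (Finset.mem_insert_self _ _)
      rw [win_col, ← e2]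
      exact hb
  sqr := by
    intro I J a a' b b' ha ha' haa hb hb' hbb h2 h3
    have haI' : a ∉ insert a' I := by
      rw [Finset.mem_insert]
      push Not
      exact ⟨haa, ha⟩
    have ha'I : a' ∉ insert a I := by
      rw [Finset.mem_insert]
      push Not
      exact ⟨haa.symm, ha'⟩
    have e0 : win K f g (insert a I) J =
        insert (f a') (win K f g (insert a (insert a' I)) J) := by
      rw [win_row ha'I, Finset.insert_comm]
    have k0 : M.IsBase (insert (f a') (insert (f a) (win K f g (insert a (insert a' I)) J))) := by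
      rw [← win_row haI', ← win_row ha']
      exact h2
    have k1 : M.IsBase (insert (g b) (insert (g b') (win K f g (insert a (insert a' I)) J))) := by
      rw [← win_col, ← win_col]
      exact h3
    have k2 := sq (h.row_notMem (Finset.mem_insert_self _ _))
      (fun e => haa (h.fi e).symm) k0 k1
    rw [← e0, ← win_col, ← win_col] at k2
    exact k2
  sqc := by
    intro I J a a' b b' ha ha' haa hb hb' hbb h2 h3
    have haI' : a ∉ insert a' I := by
      rw [Finset.mem_insert]
      push Not
      exact ⟨haa, ha⟩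
    have ha'I : a' ∉ insert a I := by
      rw [Finset.mem_insert]
      push Not
      exact ⟨haa.symm, ha'⟩
    have e0 : win K f g (insert a I) J =
        insert (f a') (win K f g (insert a (insert a' I)) J) := by
      rw [win_row ha'I, Finset.insert_comm]
    have e0' : win K f g (insert a' I) J =
        insert (f a) (win K f g (insert a (insert a' I)) J) := win_row haI'
    have k0 : M.IsBase (insert (f a') (insert (f a) (win K f g (insert a (insert a' I)) J))) := by
      rw [← win_row haI', ← win_row ha']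
      exact h2
    have k1 : M.IsBase (insert (g b) (insert (g b') (win K f g (insert a (insert a' I)) J))) := by
      rw [← win_col, ← win_col]
      exact h3
    have k2 := sq (h.col_notMem hb') (fun e => hbb (h.gi e)) k1 k0
    rw [insert_comm, ← e0, insert_comm (f a), ← e0', ← win_col, ← win_col] at k2
    exact k2
  tri := by
    intro I J a a' b b' ha ha' haa hb hb' hbb h2 h3 h4 h5
    have haI' : a ∉ insert a' I := by
      rw [Finset.mem_insert]
      push Not
      exact ⟨haa, ha⟩
    have ha'I : a' ∉ insert a I := by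
      rw [Finset.mem_insert]
      push Not
      exact ⟨haa.symm, ha'⟩
    have e0 : win K f g (insert a I) J =
        insert (f a') (win K f g (insert a (insert a' I)) J) := by
      rw [win_row ha'I, Finset.insert_comm]
    have e0' : win K f g (insert a' I) J =
        insert (f a) (win K f g (insert a (insert a' I)) J) := win_row haI'
    rw [win_col, e0'] at h4 h5
    rw [win_col, e0] at h3
    rw [win_col, win_col]
    refine par (a := f a) (h.row_notMem (Finset.mem_insert_self _ _)) (h.col_notMem hb')
      (h.fg a b) (h.fg a b') (fun e => hbb (h.gi e)) (h.col_notMem hb) ?_ ?_ ?_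
    · rw [insert_comm]
      exact h4
    · exact h3.indep.subset (insert_subset_insert (subset_insert _ _))
    · rw [insert_comm]
      exact h5

/-- rows are added, columns are removed -/
theorem sysB (h : Frm K g f) (h0 : M.IsBase (win K g f ∅ ∅))
    (h1 : M.IsBase (win K g f Finset.univ Finset.univ)) :
    Sys (fun I J => M.IsBase (win K g f J I)) where
  bot := h0
  top := h1
  ext := by
    intro I J hL _ a ha
    have e1 : f a ∈ win K g f Finset.univ Finset.univ \ win K g f J I :=
      ⟨Or.inr ⟨a, Finset.mem_univ a, rfl⟩, h.col_notMem ha⟩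
    obtain ⟨e, ⟨he1, he2⟩, hb⟩ := rev_exchange hL h1 e1
    rcases he1 with (he1 | ⟨b, hbJ, rfl⟩) | ⟨r, _, rfl⟩
    · exact absurd (Or.inl (Or.inl he1)) he2
    · refine ⟨b, hbJ, ?_⟩
      have e2 : win K g f J I \ {g b} = win K g f (insert b J) I := by
        rw [win_row hbJ, insert_sdiff_of_mem _ (mem_singleton _), sdiff_singleton_eq_self]
        exact h.row_notMem (Finset.mem_insert_self _ _)
      rw [win_col, ← e2]
      exact hb
    · exact absurd (Or.inr ⟨r, Finset.mem_univ r, rfl⟩) he2
  sqr := by
    intro I J a a' b b' ha ha' haa hb hb' hbb h2 h3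
    exact (sysA h h0 h1).sqc J I b b' a a' hb hb' hbb ha ha' haa h2 h3
  sqc := by
    intro I J a a' b b' ha ha' haa hb hb' hbb h2 h3
    exact (sysA h h0 h1).sqr J I b b' a a' hb hb' hbb ha ha' haa h2 h3
  tri := by
    intro I J a a' b b' ha ha' haa hb hb' hbb h2 h3 h4 h5
    have h6 := (sysA h h0 h1).tri J I b' b a' a hb' hb hbb.symm ha' ha haa.symm h2 h4 h3 h5
    rw [Finset.insert_comm a a', Finset.insert_comm b b']
    exact h6

end Pool.Agent.Lib.MP_2c7063_coTG
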