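import Pool.Agent.Lib.MP_2c7063_coTG.Ends

/-! The rotations of the two chains and the single exchanges. -/

namespace Pool.Agent.Lib.MP_2c7063_coTG

open Finset

variable {m : ℕ} {ρ κ : Type*} [DecidableEq ρ] [DecidableEq κ]

/-- a periodic enumeration -/
def Per (m : ℕ) (X : ℕ → ρ) : Prop := ∀ a b, X a = X b ↔ a % m = b % m

omit [DecidableEq ρ] in
theorem Per.ne {X : ℕ → ρ} (h : Per m X) {a b : ℕ} (h1 : a < b) (h2 : b < a + m) :
    X a ≠ X b := by
  intro e
  have h3 : a ≡ b [MOD m] := (h a b).1 e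
  have h4 := (Nat.modEq_iff_dvd' h1.le).1 h3
  have h5 := Nat.le_of_dvd (by omega) h4
  omega

/-- a window -/
def W (X : ℕ → ρ) (i e : ℕ) : Finset ρ := (Ico i (i + e)).image X

theorem W_zero (X : ℕ → ρ) (i : ℕ) : W X i 0 = ∅ := by
  simp [W]

theorem W_succ (X : ℕ → ρ) (i e : ℕ) : W X i (e + 1) = insert (X (i + e)) (W X i e) := by
  unfold W
  rw [← image_insert]
  congr 1
  ext t
  simp only [mem_Ico, mem_insert]
  omega

theorem W_succ' (X : ℕ → ρ) (i e : ℕ) : W X i (e + 1) = insert (X i) (W X (i + 1) e) := by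
  unfold W
  rw [← image_insert]
  congr 1
  ext t
  simp only [mem_Ico, mem_insert]
  omega

theorem mem_W {X : ℕ → ρ} {i e : ℕ} {r : ρ} : r ∈ W X i e ↔ ∃ t, i ≤ t ∧ t < i + e ∧ X t = r := by
  simp only [W, mem_image, mem_Ico, and_assoc]

theorem Per.card {X : ℕ → ρ} (h : Per m X) (i : ℕ) {e : ℕ} (he : e ≤ m) :
    (W X i e).card = e := by
  rw [W, card_image_of_injOn]
  · simp
  · intro a ha b hb hab
    simp only [coe_Ico, Set.mem_Ico] at ha hb
    by_contra hne
    rcases lt_or_gt_of_ne hne with h1 | h1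
    · exact h.ne h1 (by omega) hab
    · exact h.ne h1 (by omega) hab.symm

theorem Per.notMem_right {X : ℕ → ρ} (h : Per m X) {i e j : ℕ} (h1 : i + e ≤ j)
    (h2 : j < i + m) : X j ∉ W X i e := by
  rw [mem_W]
  rintro ⟨t, ht1, ht2, ht3⟩
  exact h.ne (show t < j by omega) (by omega) ht3

theorem Per.notMem_left {X : ℕ → ρ} (h : Per m X) {i e j : ℕ} (h1 : j < i)
    (h2 : i + e ≤ j + m) : X j ∉ W X i e := by
  rw [mem_W]
  rintro ⟨t, ht1, ht2, ht3⟩
  exact h.ne (show j < t by omega) (by omega) ht3.symm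

variable [Fintype ρ] [Fintype κ] {L₁ L₂ : Finset ρ → Finset κ → Prop}
  {X : ℕ → ρ} {Y : ℕ → κ}

theorem Per.univ {X : ℕ → ρ} (h : Per m X) (hρ : Fintype.card ρ = m) (i : ℕ) :
    W X i m = univ := by
  apply eq_of_subset_of_card_le (subset_univ _)
  rw [h.card i le_rfl, card_univ, hρ]

/-- no cell of the second system -/
theorem nc2 (hnc : NC L₁ L₂) {I : Finset ρ} {J : Finset κ} (hρ : Fintype.card ρ = m) {e : ℕ}
    (h0 : 0 < e) (h1 : e < m) (hI : I.card = e) (hJ : J.card = e) (hL : L₁ I J) : ¬ L₂ I J := by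
  refine hnc I J (hI.trans hJ.symm) ?_ ?_ hL
  · rw [← card_pos]
    omega
  · intro h
    rw [h, card_univ] at hI
    omega

/-- the two families of windows -/
def WA (m : ℕ) (L : Finset ρ → Finset κ → Prop) (X : ℕ → ρ) (Y : ℕ → κ) (i j : ℕ) : Prop :=
  ∀ e ≤ m, L (W X i e) (W Y j e)

theorem WA.next₁ (h₁ : Sys L₁) (hnc : NC L₁ L₂) (hρ : Fintype.card ρ = m)
    (hκ : Fintype.card κ = m) (hX : Per m X) (hY : Per m Y) {i : ℕ}
    (hA : WA m L₁ X Y i i) (hB : WA m L₂ X Y i (i + 1)) : WA m L₁ X Y (i + 1) (i + 1) := by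
  intro e
  induction e with
  | zero =>
    intro _
    rw [W_zero, W_zero]
    exact h₁.bot
  | succ e ih =>
    intro he
    rcases Nat.lt_or_ge (e + 1) m with h1 | h1
    · have h2 := hA (e + 2) (by omega)
      rw [W_succ' X, W_succ' Y, W_succ X, W_succ Y, Finset.insert_comm (X i),
        Finset.insert_comm (Y i)] at h2
      rcases h₁.sqc (W X (i + 1) e) (W Y (i + 1) e) (X (i + 1 + e)) (X i) (Y (i + 1 + e)) (Y i)
        (hX.notMem_right le_rfl (by omega)) (hX.notMem_left (by omega) (by omega))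
        (hX.ne (by omega) (by omega)).symm
        (hY.notMem_right le_rfl (by omega)) (hY.notMem_left (by omega) (by omega))
        (hY.ne (by omega) (by omega)).symm (ih (by omega)) h2 with h3 | h3
      · rw [W_succ, W_succ]
        exact h3
      · rw [← W_succ', ← W_succ] at h3
        exact absurd (hB (e + 1) he) (nc2 hnc hρ (Nat.succ_pos e) h1
          (hX.card i he) (hY.card (i + 1) he) h3)
    · have h2 : e + 1 = m := by omega
      rw [h2, hX.univ hρ, hY.univ hκ]
      exact h₁.top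

theorem WA.next₂ (h₂ : Sys L₂) (hnc : NC L₁ L₂) (hρ : Fintype.card ρ = m)
    (hκ : Fintype.card κ = m) (hX : Per m X) (hY : Per m Y) {i : ℕ}
    (hA : WA m L₁ X Y (i + 1) (i + 1)) (hB : WA m L₂ X Y i (i + 1)) :
    WA m L₂ X Y (i + 1) (i + 2) := by
  intro e
  induction e with
  | zero =>
    intro _
    rw [W_zero, W_zero]
    exact h₂.bot
  | succ e ih =>
    intro he
    rcases Nat.lt_or_ge (e + 1) m with h1 | h1
    · have h2 := hB (e + 2) (by omega)
      rw [W_succ' X, W_succ' Y, W_succ X, W_succ Y, Finset.insert_comm (X i),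
        Finset.insert_comm (Y (i + 1))] at h2
      rcases h₂.sqr (W X (i + 1) e) (W Y (i + 2) e) (X (i + 1 + e)) (X i)
        (Y (i + 2 + e)) (Y (i + 1))
        (hX.notMem_right le_rfl (by omega)) (hX.notMem_left (by omega) (by omega))
        (hX.ne (by omega) (by omega)).symm
        (hY.notMem_right le_rfl (by omega)) (hY.notMem_left (by omega) (by omega))
        (hY.ne (by omega) (by omega)).symm (ih (by omega)) h2 with h3 | h3
      · rw [W_succ, W_succ]
        exact h3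
      · rw [← W_succ, ← W_succ' Y (i + 1)] at h3
        exact absurd h3 (nc2 hnc hρ (Nat.succ_pos e) h1
          (hX.card (i + 1) he) (hY.card (i + 1) he) (hA (e + 1) he))
    · have h2 : e + 1 = m := by omega
      rw [h2, hX.univ hρ, hY.univ hκ]
      exact h₂.top

theorem WA.all (h₁ : Sys L₁) (h₂ : Sys L₂) (hnc : NC L₁ L₂) (hρ : Fintype.card ρ = m)
    (hκ : Fintype.card κ = m) (hX : Per m X) (hY : Per m Y)
    (hA : WA m L₁ X Y 0 0) (hB : WA m L₂ X Y 0 1) (i : ℕ) :
    WA m L₁ X Y i i ∧ WA m L₂ X Y i (i + 1) := by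
  induction i with
  | zero => exact ⟨hA, hB⟩
  | succ i ih =>
    have h3 := WA.next₁ h₁ hnc hρ hκ hX hY ih.1 ih.2
    exact ⟨h3, WA.next₂ h₂ hnc hρ hκ hX hY h3 ih.2⟩

/-- the single exchanges of the first system -/
theorem single₁ (h₁ : Sys L₁) (hnc : NC L₁ L₂) (hρ : Fintype.card ρ = m)
    (hX : Per m X) (hY : Per m Y)
    (hA : ∀ i, WA m L₁ X Y i i) (hB : ∀ i, WA m L₂ X Y i (i + 1)) {i d : ℕ} (h0 : 0 < d)
    (hd : d < m) : ¬ L₁ {X i} {Y (i + d)} := by
  intro hL
  have key : ∀ e p : ℕ, p + e = i + d → i < p →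
      L₁ (insert (X i) (W X p e)) (insert (Y (i + d)) (W Y p e)) := by
    intro e
    induction e with
    | zero =>
      intro p _ _
      rw [W_zero, W_zero]
      exact hL
    | succ e ih =>
      intro p hp hip
      have h2 := ih (p + 1) (by omega) (by omega)
      have hpe : p + 1 + e = i + d := by omega
      have h4 : ¬ L₁ (insert (X p) (W X (p + 1) e)) (insert (Y (i + d)) (W Y (p + 1) e)) := by
        rw [← hpe, ← W_succ', ← W_succ]
        intro h5
        exact absurd (hB p (e + 1) (by omega)) (nc2 hnc hρ (Nat.succ_pos e) (by omega)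
          (hX.card _ (by omega)) (hY.card _ (by omega)) h5)
      have h3 := h₁.tri (W X (p + 1) e) (W Y (p + 1) e) (X i) (X p) (Y (i + d)) (Y p)
        (hX.notMem_left (by omega) (by omega)) (hX.notMem_left (by omega) (by omega))
        (hX.ne hip (by omega))
        (hY.notMem_right (by omega) (by omega)) (hY.notMem_left (by omega) (by omega))
        (hY.ne (by omega) (by omega)).symm (hA (p + 1) e (by omega)) h2
        (by
          rw [← W_succ', ← W_succ']
          exact hA p (e + 1) (by omega)) h4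
      rw [W_succ', W_succ']
      exact h3
  have h2 := key (d - 1) (i + 1) (by omega) (by omega)
  have h3 : i + d = i + 1 + (d - 1) := by omega
  rw [← W_succ', h3, ← W_succ] at h2
  exact absurd (hB i (d - 1 + 1) (by omega)) (nc2 hnc hρ (Nat.succ_pos _) (by omega)
    (hX.card _ (by omega)) (hY.card _ (by omega)) h2)

/-- the single exchanges of the second system -/
theorem single₂ (h₂ : Sys L₂) (hnc : NC L₁ L₂) (hρ : Fintype.card ρ = m)
    (hX : Per m X) (hY : Per m Y)
    (hA : ∀ i, WA m L₁ X Y i i) (hB : ∀ i, WA m L₂ X Y i (i + 1)) {i d : ℕ} (h0 : 0 < d)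
    (hd : d < m) : ¬ L₂ {X (i + d)} {Y (i + 1)} := by
  intro hL
  have key : ∀ e : ℕ, e + 1 ≤ d →
      L₂ (insert (X (i + d)) (W X (i + 1) e)) (insert (Y (i + 1)) (W Y (i + 2) e)) := by
    intro e
    induction e with
    | zero =>
      intro _
      rw [W_zero, W_zero]
      exact hL
    | succ e ih =>
      intro he
      have h2 := ih (by omega)
      have h4 : ¬ L₂ (insert (X (i + 1 + e)) (W X (i + 1) e))
          (insert (Y (i + 1)) (W Y (i + 2) e)) := by
        rw [← W_succ, ← W_succ' Y (i + 1)]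
        exact nc2 hnc hρ (Nat.succ_pos e) (by omega)
          (hX.card _ (by omega)) (hY.card _ (by omega)) (hA (i + 1) (e + 1) (by omega))
      have h3 := h₂.tri (W X (i + 1) e) (W Y (i + 2) e) (X (i + d)) (X (i + 1 + e))
        (Y (i + 1)) (Y (i + 2 + e))
        (hX.notMem_right (by omega) (by omega)) (hX.notMem_right (by omega) (by omega))
        (hX.ne (by omega) (by omega)).symm
        (hY.notMem_left (by omega) (by omega)) (hY.notMem_right (by omega) (by omega))
        (hY.ne (by omega) (by omega)) (hB (i + 1) e (by omega)) h2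
        (by
          rw [← W_succ, ← W_succ]
          exact hB (i + 1) (e + 1) (by omega)) h4
      rw [W_succ, W_succ]
      exact h3
  have h2 := key (d - 1) (by omega)
  have h3 : i + d = i + 1 + (d - 1) := by omega
  rw [← W_succ' Y (i + 1), h3, ← W_succ] at h2
  exact absurd h2 (nc2 hnc hρ (Nat.succ_pos _) (by omega)
    (hX.card _ (by omega)) (hY.card _ (by omega)) (hA (i + 1) (d - 1 + 1) (by omega)))

theorem exists_shift (hm : 0 < m) {a b : ℕ} (hne : a % m ≠ b % m) :
    ∃ d, 0 < d ∧ d < m ∧ (a + d) % m = b % m := by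
  have h7 : (a + (b + (m - a % m)) % m) % m = b % m := by
    rw [Nat.add_mod_mod]
    have h6 : a + (b + (m - a % m)) = b + m + m * (a / m) := by
      have := Nat.mod_add_div a m
      have := Nat.mod_lt a hm
      omega
    rw [h6]
    simp
  refine ⟨(b + (m - a % m)) % m, ?_, Nat.mod_lt _ hm, h7⟩
  rcases Nat.eq_zero_or_pos ((b + (m - a % m)) % m) with h2 | h2
  · rw [h2, Nat.add_zero] at h7
    exact absurd h7 hne
  · exact h2

theorem all₁ (h₁ : Sys L₁) (hnc : NC L₁ L₂) (hm : 0 < m) (hρ : Fintype.card ρ = m)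
    (hX : Per m X) (hY : Per m Y)
    (hA : ∀ i, WA m L₁ X Y i i) (hB : ∀ i, WA m L₂ X Y i (i + 1)) (a b : ℕ)
    (hL : L₁ {X a} {Y b}) : a % m = b % m := by
  by_contra hne
  obtain ⟨d, h0, hd, he⟩ := exists_shift hm hne
  refine single₁ h₁ hnc hρ hX hY hA hB h0 hd (i := a) ?_
  rw [(hY (a + d) b).2 he]
  exact hL

theorem all₂ (h₂ : Sys L₂) (hnc : NC L₁ L₂) (hm : 0 < m) (hρ : Fintype.card ρ = m)
    (hX : Per m X) (hY : Per m Y)
    (hA : ∀ i, WA m L₁ X Y i i) (hB : ∀ i, WA m L₂ X Y i (i + 1)) (a b : ℕ)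
    (hL : L₂ {X a} {Y b}) : (a + 1) % m = b % m := by
  by_contra hne
  have h1 : (b + (m - 1)) % m ≠ a % m := by
    intro e
    apply hne
    have h2 : b + (m - 1) ≡ a [MOD m] := e
    have h3 := (h2.add_right 1).symm
    have h4 : b + (m - 1) + 1 = b + m := by omega
    rw [h4] at h3
    have h5 : (a + 1) % m = (b + m) % m := h3
    rw [h5, Nat.add_mod_right]
  obtain ⟨d, h0, hd, he⟩ := exists_shift hm h1
  refine single₂ h₂ hnc hρ hX hY hA hB h0 hd (i := b + (m - 1)) ?_
  have h4 : b + (m - 1) + 1 = b + m := by omega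
  rw [(hX (b + (m - 1) + d) a).2 he, h4, (hY (b + m) b).2 (Nat.add_mod_right _ _)]
  exact hL

/-- **the abstract gap theorem** -/
theorem abs_main (h₁ : Sys L₁) (h₂ : Sys L₂) (hnc : NC L₁ L₂) (hm : 0 < m)
    (hρ : Fintype.card ρ = m) (hκ : Fintype.card κ = m) :
    ∃ (X : ℕ → ρ) (Y : ℕ → κ), Per m X ∧ Per m Y ∧
      (∀ i, WA m L₁ X Y i i) ∧ (∀ i, WA m L₂ X Y i (i + 1)) ∧
      (∀ a b, L₁ {X a} {Y b} → a % m = b % m) ∧
      (∀ a b, L₂ {X a} {Y b} → (a + 1) % m = b % m) := by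
  obtain ⟨x0, y0, z0, h0⟩ := exists_Mn h₁ h₂ hρ hκ
  obtain ⟨x, y, z, ⟨⟨hc1, hc2⟩, _⟩, hg⟩ := h0.all h₁ h₂ m
  have hg' : ∀ j, (wp y z j : ℕ) ≤ j + 1 := by
    intro j
    have := hg j
    omega
  have hw := wp_eq hnc ⟨hc1, hc2⟩ hg'
  have hX : Per m (fun j : ℕ => x ⟨j % m, Nat.mod_lt j hm⟩) := by
    intro a b
    simp only [EmbeddingLike.apply_eq_iff_eq, Fin.mk.injEq]
  have hY : Per m (fun j : ℕ => y ⟨j % m, Nat.mod_lt j hm⟩) := by
    intro a b
    simp only [EmbeddingLike.apply_eq_iff_eq, Fin.mk.injEq]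
  have hz : ∀ j : Fin m, z j = y ⟨(j + 1) % m, Nat.mod_lt _ hm⟩ := by
    intro j
    have h1 : wp y z j = ⟨(j + 1) % m, Nat.mod_lt _ hm⟩ := Fin.ext (hw j)
    rw [← h1, wp, Equiv.apply_symm_apply]
  have hWx : ∀ e ≤ m, pre x e = W (fun j : ℕ => x ⟨j % m, Nat.mod_lt j hm⟩) 0 e := by
    intro e he
    ext r
    obtain ⟨j, rfl⟩ := x.surjective r
    rw [app_mem_pre, mem_W]
    constructor
    · intro h
      refine ⟨j, by omega, by omega, ?_⟩
      congr 1
      exact Fin.ext (Nat.mod_eq_of_lt j.2)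
    · rintro ⟨t, _, ht, hx⟩
      have h1 := congrArg Fin.val (x.injective hx)
      simp only at h1
      rw [Nat.mod_eq_of_lt (by omega)] at h1
      omega
  have hWy : ∀ e ≤ m, pre y e = W (fun j : ℕ => y ⟨j % m, Nat.mod_lt j hm⟩) 0 e := by
    intro e he
    ext r
    obtain ⟨j, rfl⟩ := y.surjective r
    rw [app_mem_pre, mem_W]
    constructor
    · intro h
      refine ⟨j, by omega, by omega, ?_⟩
      congr 1
      exact Fin.ext (Nat.mod_eq_of_lt j.2)
    · rintro ⟨t, _, ht, hx⟩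
      have h1 := congrArg Fin.val (y.injective hx)
      simp only at h1
      rw [Nat.mod_eq_of_lt (by omega)] at h1
      omega
  have hWz : ∀ e ≤ m, pre z e = W (fun j : ℕ => y ⟨j % m, Nat.mod_lt j hm⟩) 1 e := by
    intro e he
    ext r
    obtain ⟨j, rfl⟩ := z.surjective r
    rw [app_mem_pre, mem_W]
    constructor
    · intro h
      refine ⟨j + 1, by omega, by omega, ?_⟩
      rw [hz j]
    · rintro ⟨t, ht0, ht, hx⟩
      rw [hz j] at hx
      have h1 := congrArg Fin.val (y.injective hx)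
      simp only at h1
      obtain ⟨s, rfl⟩ : ∃ s, t = s + 1 := ⟨t - 1, by omega⟩
      have h2 : (s + 1) ≡ ((j : ℕ) + 1) [MOD m] := h1
      have h3 : s ≡ (j : ℕ) [MOD m] := Nat.ModEq.add_right_cancel' 1 h2
      have h4 : s % m = (j : ℕ) % m := h3
      rw [Nat.mod_eq_of_lt (show s < m by omega), Nat.mod_eq_of_lt j.2] at h4
      omega
  have hA0 : WA m L₁ (fun j : ℕ => x ⟨j % m, Nat.mod_lt j hm⟩)
      (fun j : ℕ => y ⟨j % m, Nat.mod_lt j hm⟩) 0 0 := by
    intro e he
    rw [← hWx e he, ← hWy e he]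
    exact hc1 e he
  have hB0 : WA m L₂ (fun j : ℕ => x ⟨j % m, Nat.mod_lt j hm⟩)
      (fun j : ℕ => y ⟨j % m, Nat.mod_lt j hm⟩) 0 1 := by
    intro e he
    rw [← hWx e he, ← hWz e he]
    exact hc2 e he
  have hall := WA.all h₁ h₂ hnc hρ hκ hX hY hA0 hB0
  have hA := fun i => (hall i).1
  have hB := fun i => (hall i).2
  exact ⟨_, _, hX, hY, hA, hB, all₁ h₁ hnc hm hρ hX hY hA hB, all₂ h₂ hnc hm hρ hX hY hA hB⟩

end Pool.Agent.Lib.MP_2c7063_coTG
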